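import Pool.Agent.Lib.helper5.DegreeB

/-! A fixed point theorem on the simplex for convex valued maps with local constant selections. -/

namespace Pool.Agent.P.MP_3c7b76_co

open Set Metric Topology Filter

/-- Brouwer's theorem for bounded maps. -/
theorem brouwer {ι : Type} [Fintype ι] [Nonempty ι] {F : (ι → ℝ) → ι → ℝ} (hF : Continuous F)
    (hb : ∀ t, ‖F t‖ ≤ 1) : ∃ t, F t = t := by
  have h1 := Pool.Agent.Lib.helper5.deg_id_pos (E := ι → ℝ) (U := ball 0 2) isOpen_ball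
    isBounded_ball (mem_ball_self two_pos)
  have hG : Continuous fun t => t - F t := by fun_prop
  have h2 := Pool.Agent.Lib.helper5.deg_homotopy (E := ι → ℝ) (F := fun t => t - 0)
    (G := fun t => t - F t) (U := ball 0 2) (by fun_prop) hG isOpen_ball isBounded_ball (by
      intro t ht τ hτ h0
      rw [frontier_ball _ two_ne_zero, mem_sphere_zero_iff_norm] at ht
      have e : t = τ • F t := by
        have : (1 - τ) • (t - 0) + τ • (t - F t) = t - τ • F t := by module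
        rw [this] at h0
        exact sub_eq_zero.1 h0
      have h3 : ‖t‖ = τ * ‖F t‖ := by
        conv_lhs => rw [e]
        rw [norm_smul, Real.norm_eq_abs, abs_of_nonneg hτ.1]
      nlinarith [hb t, hτ.1, hτ.2, norm_nonneg (F t)])
  obtain ⟨t, -, ht⟩ := Pool.Agent.Lib.helper5.exists_zero_of_deg_ne_zero hG isOpen_ball
    isBounded_ball (h2 ▸ h1.ne')
  exact ⟨t, (sub_eq_zero.1 ht).symm⟩

theorem exists_retr (ι : Type) [Fintype ι] [Nonempty ι] :
    ∃ ρ : (ι → ℝ) → ι → ℝ, Continuous ρ ∧ (∀ t, (∀ i, 0 ≤ ρ t i) ∧ ∑ i, ρ t i = 1) ∧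
      ∀ t, (∀ i, 0 ≤ t i) → ∑ i, t i = 1 → ρ t = t := by
  have hc : (0 : ℝ) < Fintype.card ι := by exact_mod_cast Fintype.card_pos
  refine ⟨fun t i => (max (t i) 0 + max (1 - ∑ j, max (t j) 0) 0 / Fintype.card ι) /
    max (∑ j, max (t j) 0) 1, ?_, fun t => ⟨fun i => by positivity, ?_⟩, fun t h0 h1 => ?_⟩
  · refine continuous_pi fun i => Continuous.div (by fun_prop) (by fun_prop) fun t => ?_
    positivity
  · rw [← Finset.sum_div, Finset.sum_add_distrib, Finset.sum_const, Finset.card_univ,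
      nsmul_eq_mul, mul_div_cancel₀ _ hc.ne', div_eq_one_iff_eq (by positivity)]
    rcases le_total (∑ j, max (t j) 0) 1 with h | h
    · rw [max_eq_left (by linarith), max_eq_right h]; ring
    · rw [max_eq_right (by linarith), max_eq_left h]; ring
  · funext i
    have : ∑ j, max (t j) 0 = 1 := by
      rw [← h1]; exact Finset.sum_congr rfl fun j _ => max_eq_left (h0 j)
    simp [this, max_eq_left (h0 i)]

/-- A Kakutani type theorem. -/
theorem kak {ι : Type} [Fintype ι] [Nonempty ι] {F : Type} [AddCommGroup F] [Module ℝ F]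
    [TopologicalSpace F] [ContinuousAdd F] [ContinuousSMul ℝ F]
    (t : (ι → ℝ) → Set F) (hconv : ∀ ω, Convex ℝ (t ω))
    (hloc : ∀ ω : ι → ℝ, (∀ i, 0 ≤ ω i) → ∑ i, ω i = 1 → ∃ c, ∀ᶠ y in 𝓝 ω, c ∈ t y)
    (π : F → ι → ℝ) (hπ : Continuous π)
    (hπ' : ∀ ω c, c ∈ t ω → (∀ i, 0 ≤ π c i) ∧ ∑ i, π c i = 1) :
    ∃ ω : ι → ℝ, (∀ i, 0 ≤ ω i) ∧ ∑ i, ω i = 1 ∧ ∃ c ∈ t ω, π c = ω := by
  obtain ⟨ρ, hρ, hρ1, hρ2⟩ := exists_retr ι
  obtain ⟨g, hg⟩ := exists_continuous_forall_mem_convex_of_local_const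
    (t := fun x => t (ρ x)) (fun x => hconv _) (fun x => by
      obtain ⟨c, hc⟩ := hloc (ρ x) (hρ1 x).1 (hρ1 x).2
      exact ⟨c, (hρ.tendsto x).eventually hc⟩)
  obtain ⟨x, hx⟩ := brouwer (F := fun x => π (g x)) (by fun_prop) (fun x => by
    obtain ⟨h0, h1⟩ := hπ' _ _ (hg x)
    rw [pi_norm_le_iff_of_nonneg zero_le_one]
    intro i
    rw [Real.norm_eq_abs, abs_of_nonneg (h0 i), ← h1]
    exact Finset.single_le_sum (fun j _ => h0 j) (Finset.mem_univ i))
  obtain ⟨h0, h1⟩ := hπ' _ _ (hg x)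
  rw [hx] at h0 h1
  refine ⟨x, h0, h1, g x, ?_, hx⟩
  have := hg x
  rwa [hρ2 x h0 h1] at this

end Pool.Agent.P.MP_3c7b76_co
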