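import Mathlib

/-! Chains of halving sets along a sequence of linear orders. -/

namespace Pool.Agent.P.MP_3c7b76_co

open Finset

variable {V L : Type} [LinearOrder L]

theorem rank_lt {F : Finset V} {k : V → L} {a b : V} (ha : a ∈ F) (h : k a < k b) :
    (F.filter fun c => k c < k a).card < (F.filter fun c => k c < k b).card := by
  refine card_lt_card ⟨fun c hc => ?_, fun hc => ?_⟩
  · rw [mem_filter] at hc ⊢
    exact ⟨hc.1, hc.2.trans h⟩
  · have := hc (mem_filter.2 ⟨ha, h⟩)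
    exact lt_irrefl _ (mem_filter.1 this).2

theorem rank_inj {F : Finset V} {k : V → L} (hk : Function.Injective k) {a b : V} (ha : a ∈ F)
    (hb : b ∈ F)
    (h : (F.filter fun c => k c < k a).card = (F.filter fun c => k c < k b).card) : a = b := by
  rcases lt_trichotomy (k a) (k b) with h1 | h1 | h1
  · exact absurd h (rank_lt ha h1).ne
  · exact hk h1
  · exact absurd h (rank_lt hb h1).ne'

theorem rank_count (F : Finset V) {k : V → L} (hk : Function.Injective k) (τ : ℕ) :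
    (F.filter fun a => (F.filter fun c => k c < k a).card < τ).card = min τ F.card := by
  have inj : Set.InjOn (fun a => (F.filter fun c => k c < k a).card) F :=
    fun a ha b hb h => rank_inj hk ha hb h
  have im : F.image (fun a => (F.filter fun c => k c < k a).card) = range F.card := by
    refine eq_of_subset_of_card_le (fun r hr => ?_) (by rw [card_image_of_injOn inj, card_range])
    obtain ⟨a, ha, rfl⟩ := mem_image.1 hr
    refine mem_range.2 (card_lt_card ⟨filter_subset _ _, fun hc => ?_⟩)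
    exact lt_irrefl _ (mem_filter.1 (hc ha)).2
  rw [← card_image_of_injOn (inj.mono (coe_subset.2 (filter_subset _ _))),
    ← filter_image (p := fun r => r < τ), im]
  have : (range F.card).filter (fun r => r < τ) = range (min τ F.card) := by
    ext r; simp only [mem_filter, mem_range]; omega
  rw [this, card_range]

theorem exists_upper [Fintype V] {k : V → L} (hk : Function.Injective k) {n : ℕ}
    (hn : n ≤ Fintype.card V) :
    ∃ S : Finset V, S.card = n ∧ ∀ a b, k b < k a → b ∈ S → a ∈ S := by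
  refine ⟨univ.filter fun a => (univ.filter fun c => k a < k c).card < n, ?_, fun a b h hb => ?_⟩
  · have := rank_count (L := Lᵒᵈ) univ (k := fun a => OrderDual.toDual (k a))
      (OrderDual.toDual.injective.comp hk) n
    rw [card_univ, min_eq_left hn] at this
    exact this
  · rw [mem_filter] at hb ⊢
    have := rank_lt (L := Lᵒᵈ) (F := univ) (k := fun a => OrderDual.toDual (k a)) (mem_univ a)
      (b := b) h
    exact ⟨mem_univ _, lt_trans this hb.2⟩

theorem interp [DecidableEq V] {k : V → L} (hk : Function.Injective k) (S T : Finset V)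
    (hc : S.card = T.card) :
    ∃ A : ℕ → Finset V, A 0 = S ∧ (∀ τ, S.card ≤ τ → A τ = T) ∧ (∀ τ, (A τ).card = S.card) ∧
      (∀ τ a b, a ∉ A τ → a ∈ A (τ + 1) → b ∉ A τ → b ∈ A (τ + 1) → a = b) ∧
      (∀ τ a b, a ∈ A τ → a ∉ A (τ + 1) → b ∈ A τ → b ∉ A (τ + 1) → a = b) ∧
      (∀ τ a b, k b < k a → (b ∈ S → a ∈ S) → (b ∈ T → a ∈ T) → b ∈ A τ → a ∈ A τ) ∧
      (∀ θ τ a b, θ ≤ τ → (b ∈ S → a ∈ S) → b ∈ A θ → a ∉ A θ → a ∈ A τ → b ∈ A τ) := by
  set lo : V → ℕ := fun a => ((S \ T).filter fun c => k c < k a).card with hlo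
  set hi : V → ℕ := fun a => ((T \ S).filter fun c => k a < k c).card with hhi
  have hk' : Function.Injective fun a => OrderDual.toDual (k a) :=
    OrderDual.toDual.injective.comp hk
  have c1 := fun τ => rank_count (S \ T) hk τ
  have c2 : ∀ τ, ((T \ S).filter fun a => hi a < τ).card = min τ (T \ S).card :=
    fun τ => rank_count (L := Lᵒᵈ) (T \ S) hk' τ
  have c3 := card_sdiff_add_card_inter S T
  have c4 := card_sdiff_add_card_inter T S
  rw [inter_comm] at c4
  have l1 : ∀ a b, b ∈ S → b ∉ T → k b < k a → lo b < lo a := fun a b h1 h2 h =>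
    rank_lt (mem_sdiff.2 ⟨h1, h2⟩) h
  have l2 : ∀ a b, a ∈ T → a ∉ S → k b < k a → hi a < hi b := fun a b h1 h2 h =>
    rank_lt (L := Lᵒᵈ) (k := fun a => OrderDual.toDual (k a)) (mem_sdiff.2 ⟨h1, h2⟩) h
  have l3 : ∀ a, a ∈ S → a ∉ T → lo a < S.card := fun a h1 h2 =>
    lt_of_lt_of_le (card_lt_card ⟨filter_subset _ _, fun h =>
      lt_irrefl _ (mem_filter.1 (h (mem_sdiff.2 ⟨h1, h2⟩))).2⟩) (by omega)
  have l4 : ∀ a, a ∈ T → a ∉ S → hi a < S.card := fun a h1 h2 =>
    lt_of_lt_of_le (card_lt_card ⟨filter_subset _ _, fun h =>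
      lt_irrefl _ (mem_filter.1 (h (mem_sdiff.2 ⟨h1, h2⟩))).2⟩) (by omega)
  set A : ℕ → Finset V := fun τ => (S ∩ T ∪ (S \ T).filter fun a => ¬ lo a < τ) ∪
    (T \ S).filter fun a => hi a < τ with hA
  have mem : ∀ τ a, a ∈ A τ ↔ (a ∈ S ∧ a ∈ T) ∨ (a ∈ S ∧ a ∉ T ∧ τ ≤ lo a) ∨
      (a ∈ T ∧ a ∉ S ∧ hi a < τ) := fun τ a => by
    simp only [hA, mem_union, mem_inter, mem_filter, mem_sdiff, not_lt, or_assoc, and_assoc]
  refine ⟨A, ?_, fun τ hτ => ?_, fun τ => ?_, fun τ a b => ?_, fun τ a b => ?_,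
    fun τ a b => ?_, fun θ τ a b => ?_⟩
  · ext a
    rw [mem]
    by_cases h1 : a ∈ S <;> by_cases h2 : a ∈ T <;> simp [h1, h2]
  · ext a
    rw [mem]
    by_cases h1 : a ∈ S <;> by_cases h2 : a ∈ T <;> simp [h1, h2]
    · exact (l3 a h1 h2).trans_le hτ
    · exact (l4 a h2 h1).trans_le hτ
  · have d1 := card_filter_add_card_filter_not (s := S \ T) (fun a => lo a < τ)
    have d2 := c1 τ
    have d3 := c2 τ
    simp only [hA]
    rw [card_union_of_disjoint, card_union_of_disjoint]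
    · change ((S \ T).filter fun a => lo a < τ).card = _ at d2
      omega
    · rw [disjoint_left]
      intro a h1 h2
      exact (mem_sdiff.1 (mem_filter.1 h2).1).2 (mem_inter.1 h1).2
    · rw [disjoint_left]
      intro a h1 h2
      refine (mem_sdiff.1 (mem_filter.1 h2).1).2 ?_
      rcases mem_union.1 h1 with h | h
      · exact (mem_inter.1 h).1
      · exact (mem_sdiff.1 (mem_filter.1 h).1).1
  · have key : ∀ a, a ∉ A τ → a ∈ A (τ + 1) → a ∈ T ∧ a ∉ S ∧ hi a = τ := fun a => by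
      rw [mem, mem]
      by_cases h1 : a ∈ S <;> by_cases h2 : a ∈ T <;> simp [h1, h2] <;> omega
    intro a1 a2 b1 b2
    obtain ⟨a3, a4, a5⟩ := key a a1 a2
    obtain ⟨b3, b4, b5⟩ := key b b1 b2
    exact rank_inj (L := Lᵒᵈ) hk' (mem_sdiff.2 ⟨a3, a4⟩) (mem_sdiff.2 ⟨b3, b4⟩)
      (a5.trans b5.symm)
  · have key : ∀ a, a ∈ A τ → a ∉ A (τ + 1) → a ∈ S ∧ a ∉ T ∧ lo a = τ := fun a => by
      rw [mem, mem]
      by_cases h1 : a ∈ S <;> by_cases h2 : a ∈ T <;> simp [h1, h2] <;> omega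
    intro a1 a2 b1 b2
    obtain ⟨a3, a4, a5⟩ := key a a1 a2
    obtain ⟨b3, b4, b5⟩ := key b b1 b2
    exact rank_inj hk (mem_sdiff.2 ⟨a3, a4⟩) (mem_sdiff.2 ⟨b3, b4⟩) (a5.trans b5.symm)
  · intro h
    rw [mem, mem]
    by_cases h1 : a ∈ S <;> by_cases h2 : a ∈ T <;> by_cases h3 : b ∈ S <;>
      by_cases h4 : b ∈ T <;> simp [h1, h2, h3, h4]
    · exact fun h5 => h5.trans (l1 a b h3 h4 h).le
    · exact fun h5 => (l2 a b h2 h1 h).trans h5
  · intro h
    rw [mem, mem, mem, mem]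
    by_cases h1 : a ∈ S <;> by_cases h2 : a ∈ T <;> by_cases h3 : b ∈ S <;>
      by_cases h4 : b ∈ T <;> simp [h1, h2, h3, h4] <;> omega

theorem window {Q : ℤ → Prop} {M : ℕ} (hM : 0 < M) (c : ℤ) (h1 : ∀ j, Q (j + M) ↔ Q j)
    (h2 : ∀ j, c ≤ j → j < c + M → Q j) (j : ℤ) : Q j := by
  have hp : Function.Periodic Q (M : ℤ) := fun j => propext (h1 j)
  have a1 := Int.emod_nonneg (j - c) (show (M : ℤ) ≠ 0 by omega)
  have a2 := Int.emod_lt_of_pos (j - c) (show (0 : ℤ) < M by omega)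
  have a3 := Int.emod_add_mul_ediv (j - c) M
  have a4 := hp.int_mul ((j - c) / M) (c + (j - c) % M)
  have a5 : c + (j - c) % M + (((j - c) / M : ℤ) : ℤ) * M = j := by linarith
  rw [Int.cast_id, a5] at a4
  rw [a4]
  exact h2 _ (by omega) (by omega)

theorem exists_ext {M : ℕ} (hM : 0 < M) (B : ℕ → Finset V) (hB : ∀ a, a ∈ B M ↔ a ∉ B 0) :
    ∃ σ : V → ℤ → Prop, (∀ a j, σ a (j + M) ↔ ¬ σ a j) ∧
      ∀ a (j : ℕ), j ≤ M → (σ a j ↔ a ∈ B j) := by
  have hM' : (M : ℤ) ≠ 0 := by omega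
  refine ⟨fun a j => a ∈ B (j % M).toNat ↔ (j / M) % 2 = 0, fun a j => ?_, fun a j hj => ?_⟩
  · have e : (j + M) / M = j / M + 1 := by
      have := Int.add_mul_ediv_right j 1 hM'
      rwa [one_mul] at this
    simp only [Int.add_emod_right, e]
    have : (j / M + 1) % 2 = 0 ↔ ¬ (j / M) % 2 = 0 := by omega
    rw [this]
    tauto
  · rcases hj.eq_or_lt with rfl | hj
    · simp [hB, Int.ediv_self hM']
    · have e1 : (j : ℤ) % M = j := Int.emod_eq_of_lt (by omega) (by omega)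
      have e2 : (j : ℤ) / M = 0 := Int.ediv_eq_zero_of_lt (by omega) (by omega)
      simp [e1, e2]

open Classical in
theorem chain [Fintype V] {n K : ℕ} (hn : Fintype.card V = 2 * n) (hK : 0 < K) (k : ℕ → V → L)
    (hk : ∀ i, Function.Injective (k i)) (hrev : ∀ a b, k K a < k K b ↔ k 0 b < k 0 a)
    (hmono : ∀ a b i i', i ≤ i' → i' ≤ K → k 0 b < k 0 a → k i a < k i b → k i' a < k i' b) :
    ∃ (M : ℕ) (σ : V → ℤ → Prop), 0 < M ∧ (∀ a j, σ a (j + M) ↔ ¬ σ a j) ∧
      (∀ j, (univ.filter fun a => σ a j).card = n) ∧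
      (∀ j a b, ¬ σ a (j - 1) ∧ σ a j → ¬ σ b (j - 1) ∧ σ b j → a = b) ∧
      (∀ a b, ∃ θ : ℤ, -(M : ℤ) ≤ θ ∧ θ ≤ M ∧ ∀ j, θ ≤ j → j < θ + M → σ b j → σ a j) ∧
      ∀ j, ∃ i < K, (∀ a b, k i b < k i a → k (i + 1) b < k (i + 1) a → σ b j → σ a j) ∨
        ∀ a b, k i b < k i a → k (i + 1) b < k (i + 1) a → σ a j → σ b j := by
  choose S0 hS1 hS2 using fun i => exists_upper (hk i) (n := n) (by omega)
  obtain ⟨S, s1, s2, s3⟩ : ∃ S : ℕ → Finset V, (∀ i, (S i).card = n) ∧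
      (∀ i a b, k i b < k i a → b ∈ S i → a ∈ S i) ∧ ∀ a, a ∈ S K ↔ a ∉ S 0 := by
    refine ⟨fun i => if i = K then (S0 0)ᶜ else S0 i, fun i => ?_, fun i a b h => ?_, fun a => ?_⟩
    · dsimp only
      split_ifs
      · rw [card_compl, hS1]; omega
      · exact hS1 i
    · dsimp only
      split_ifs with hi
      · subst hi
        rw [mem_compl, mem_compl]
        exact fun h1 h2 => h1 (hS2 0 b a ((hrev _ _).1 h) h2)
      · exact hS2 i a b h
    · simp [hK.ne]
  choose A a0 a1 a2 a3 a4 a5 a6 using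
    fun i => interp (hk i) (S i) (S (i + 1)) (by rw [s1, s1])
  set D := n + 1 with hD
  have hD0 : 0 < D := by omega
  set B : ℕ → Finset V := fun j => A (j / D) (j % D) with hB
  have b1 : ∀ i τ, τ ≤ D → B (D * i + τ) = A i τ := by
    intro i τ hτ
    rcases hτ.eq_or_lt with rfl | hτ
    · have : D * i + D = D * (i + 1) := by ring
      simp only [hB, this, Nat.mul_div_cancel_left _ hD0, Nat.mul_mod_right, a0]
      exact (a1 i D (by rw [s1]; omega)).symm
    · simp only [hB, Nat.mul_add_div hD0, Nat.mul_add_mod, Nat.div_eq_of_lt hτ,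
        Nat.mod_eq_of_lt hτ, add_zero]
  have hM : 0 < D * K := Nat.mul_pos hD0 hK
  obtain ⟨σ, g1, g2⟩ := exists_ext hM B (fun a => by
    have e1 := b1 K 0 (Nat.zero_le _)
    have e2 := b1 0 0 (Nat.zero_le _)
    rw [add_zero, a0] at e1
    rw [mul_zero, add_zero, a0] at e2
    rw [e1, e2, s3])
  have dec : ∀ j : ℤ, 0 ≤ j → j < (D * K : ℕ) → ∃ i τ : ℕ, i < K ∧ τ < D ∧
      j = (D * i + τ : ℕ) ∧ (∀ a, σ a j ↔ a ∈ A i τ) ∧ ∀ a, σ a (j + 1) ↔ a ∈ A i (τ + 1) := by
    intro j j0 j1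
    obtain ⟨m, rfl⟩ := Int.eq_ofNat_of_zero_le j0
    have j2 : m < D * K := by exact_mod_cast j1
    have e := (Nat.div_add_mod m D).symm
    have e' := Nat.mod_lt m hD0
    refine ⟨m / D, m % D, Nat.div_lt_of_lt_mul j2, e', by rw [← e], fun a => g2 a m j2.le,
      fun a => ?_⟩
    rw [← b1 _ (m % D + 1) e', ← add_assoc, ← e, ← g2 a (m + 1) j2]
    simp
  have both : ∀ i τ a b, k i b < k i a → k (i + 1) b < k (i + 1) a → b ∈ A i τ → a ∈ A i τ :=
    fun i τ a b h1 h2 => a5 i τ a b h1 (s2 _ _ _ h1) (s2 _ _ _ h2)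
  have pair : ∀ a b, k 0 b < k 0 a → ∃ θ : ℤ, 0 ≤ θ ∧ θ ≤ (D * K : ℕ) ∧
      (∀ j, 0 ≤ j → j < θ → σ b j → σ a j) ∧
      ∀ j, θ ≤ j → j < (D * K : ℕ) → σ a j → σ b j := by
    intro a b hab
    have hne : a ≠ b := fun e => by rw [e] at hab; exact lt_irrefl _ hab
    have tri : ∀ i, ¬ k i b < k i a → k i a < k i b := fun i h =>
      lt_of_le_of_ne (not_lt.1 h) fun e => hne (hk i e)
    by_cases hc : ∃ j : ℤ, 0 ≤ j ∧ j < (D * K : ℕ) ∧ σ b j ∧ ¬ σ a j
    · obtain ⟨θ, ⟨t0, t1, t2, t3⟩, t4⟩ := Int.exists_least_of_bdd ⟨0, fun z hz => hz.1⟩ hc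
      refine ⟨θ, t0, t1.le, fun j j0 j1 j2 => ?_, fun j j0 j1 => ?_⟩
      · by_contra j3
        have := t4 j ⟨j0, by omega, j2, j3⟩
        omega
      · obtain ⟨i, τ, i1, i2, i3, i4, -⟩ := dec θ t0 t1
        obtain ⟨i', τ', i1', i2', i3', i4', -⟩ := dec j (by omega) j1
        rw [i4] at t2 t3
        rw [i4', i4']
        have c1 : k (i + 1) a < k (i + 1) b := by
          by_cases c2 : k i b < k i a
          · exact tri _ fun c3 => t3 (both _ _ _ _ c2 c3 t2)
          · exact hmono a b i (i + 1) (by omega) (by omega) hab (tri _ c2)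
        have c4 : D * i + τ ≤ D * i' + τ' := by omega
        have c5 : i ≤ i' := by
          by_contra c6
          have := Nat.mul_le_mul_left D (show i' + 1 ≤ i by omega)
          rw [mul_add] at this
          omega
        rcases c5.eq_or_lt with rfl | c5
        · by_cases c2 : k i b < k i a
          · exact a6 i τ τ' a b (by omega) (s2 _ _ _ c2) t2 t3
          · exact both _ _ _ _ (tri _ c2) c1
        · exact both _ _ _ _ (hmono a b (i + 1) i' c5 (by omega) hab c1)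
            (hmono a b (i + 1) (i' + 1) (by omega) (by omega) hab c1)
    · refine ⟨(D * K : ℕ), by omega, le_rfl, fun j j0 j1 j2 => ?_, fun j j0 j1 => by omega⟩
      by_contra j3
      exact hc ⟨j, j0, j1, j2, j3⟩
  refine ⟨D * K, σ, hM, g1, window hM 0 (fun j => ?_) fun j j0 j1 => ?_, fun j => ?_,
    fun a b => ?_, window hM 0 (fun j => ?_) fun j j0 j1 => ?_⟩
  · have := card_filter_add_card_filter_not (s := univ) (fun a => σ a j)
    rw [card_univ] at this
    simp only [g1]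
    omega
  · obtain ⟨i, τ, -, -, -, i4, -⟩ := dec j j0 (by omega)
    simp only [i4, filter_univ_mem]
    rw [a2, s1]
  · have := window (Q := fun j => (∀ a b, ¬ σ a j ∧ σ a (j + 1) → ¬ σ b j ∧ σ b (j + 1) → a = b) ∧
        ∀ a b, σ a j ∧ ¬ σ a (j + 1) → σ b j ∧ ¬ σ b (j + 1) → a = b) hM 0 (fun j => by
      simp only [add_right_comm j _ 1, g1, not_not]
      exact and_comm) (fun j j0 j1 => by
      obtain ⟨i, τ, -, -, -, i4, i5⟩ := dec j j0 (by omega)
      simp only [i4, i5]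
      exact ⟨fun a b h1 h2 => a3 i τ a b h1.1 h1.2 h2.1 h2.2,
        fun a b h1 h2 => a4 i τ a b h1.1 h1.2 h2.1 h2.2⟩) (j - 1)
    simpa only [sub_add_cancel] using this.1
  · rcases lt_trichotomy (k 0 a) (k 0 b) with h | h | h
    · obtain ⟨θ, t0, t1, t2, t3⟩ := pair b a h
      refine ⟨θ, by omega, t1, fun j j0 j1 => ?_⟩
      by_cases hj : j < (D * K : ℕ)
      · exact t3 j j0 hj
      · have e : j = j - (D * K : ℕ) + (D * K : ℕ) := by ring
        rw [e, g1, g1]
        exact fun h1 h2 => h1 (t2 _ (by omega) (by omega) h2)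
    · rw [hk 0 h]
      exact ⟨0, by omega, by omega, fun j _ _ h => h⟩
    · obtain ⟨θ, t0, t1, t2, t3⟩ := pair a b h
      refine ⟨θ - (D * K : ℕ), by omega, by omega, fun j j0 j1 => ?_⟩
      by_cases hj : 0 ≤ j
      · exact t2 j hj (by omega)
      · have := t3 (j + (D * K : ℕ)) (by omega) (by omega)
        rw [g1, g1] at this
        tauto
  · simp only [g1, not_imp_not]
    exact exists_congr fun i => and_congr_right fun _ => or_comm
  · obtain ⟨i, τ, i1, -, -, i4, -⟩ := dec j j0 (by omega)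
    exact ⟨i, i1, Or.inl fun a b h1 h2 => by rw [i4, i4]; exact both i τ a b h1 h2⟩

end Pool.Agent.P.MP_3c7b76_co
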