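import Mathlib

/-! Distance on the circle of length two, periodic sums and arcs. -/

namespace Pool.Agent.P.MP_3c7b76_co

open Finset

/-- Distance to the nearest even integer. -/
noncomputable def cd (z : ℝ) : ℝ := ‖(z : AddCircle (2 : ℝ))‖

theorem cd_nonneg (z : ℝ) : 0 ≤ cd z := norm_nonneg _

theorem cd_le_abs (z : ℝ) : cd z ≤ |z| := by
  unfold cd
  exact QuotientAddGroup.norm_mk_le_norm

theorem cd_add_le (a b : ℝ) : cd (a + b) ≤ cd a + cd b := by
  unfold cd
  rw [AddCircle.coe_add]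
  exact norm_add_le _ _

theorem cd_neg (a : ℝ) : cd (-a) = cd a := by
  unfold cd
  rw [AddCircle.coe_neg, norm_neg]

theorem cd_add_int (a : ℝ) (k : ℤ) : cd (a + 2 * k) = cd a := by
  unfold cd
  have : ((2 * k : ℝ) : AddCircle (2 : ℝ)) = 0 := by
    rw [AddCircle.coe_eq_zero_iff]
    exact ⟨k, by rw [zsmul_eq_mul]; ring⟩
  rw [AddCircle.coe_add, this, add_zero]

theorem cd_eq (a : ℝ) : ∃ k : ℤ, cd a = |a + 2 * k| := by
  refine ⟨-round ((2 : ℝ)⁻¹ * a), ?_⟩
  unfold cd
  rw [AddCircle.norm_eq]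
  congr 1
  push_cast
  ring

theorem continuous_cd : Continuous cd := by
  unfold cd
  exact continuous_norm.comp (AddCircle.continuous_mk' 2)

/-- The tent of height one half. -/
noncomputable def tent (z : ℝ) : ℝ := max (1 / 2 - cd z) 0

theorem tent_nonneg (z : ℝ) : 0 ≤ tent z := le_max_right _ _

theorem tent_ge (z : ℝ) : 1 / 2 - |z| ≤ tent z :=
  le_trans (by linarith [cd_le_abs z]) (le_max_left _ _)

theorem tent_add_int (a : ℝ) (k : ℤ) : tent (a + 2 * k) = tent a := by
  unfold tent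
  rw [cd_add_int]

theorem tent_lip (a b : ℝ) : tent a - |a - b| ≤ tent b := by
  have h1 := cd_add_le a (b - a)
  have h2 := cd_le_abs (b - a)
  rw [abs_sub_comm] at h2
  rw [add_sub_cancel] at h1
  have h3 := abs_nonneg (a - b)
  unfold tent
  rcases le_total (1 / 2 - cd a) 0 with h | h
  · rw [max_eq_right h]; linarith [le_max_right (1 / 2 - cd b) 0]
  · rw [max_eq_left h]; linarith [le_max_left (1 / 2 - cd b) 0]

theorem continuous_tent : Continuous tent := by
  unfold tent
  exact (continuous_const.sub continuous_cd).max continuous_const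

theorem tent_pair {y : ℝ} (hy : y ≤ 1 / 2) (a b : ℝ) :
    y - 1 + tent a + tent b ≤ max (y - cd (a - b)) 0 := by
  have h1 := cd_add_le a (-b)
  rw [cd_neg, ← sub_eq_add_neg] at h1
  have h2 := cd_nonneg a
  have h3 := cd_nonneg b
  have h4 := le_max_left (y - cd (a - b)) 0
  have h5 := le_max_right (y - cd (a - b)) 0
  unfold tent
  rcases le_total (1 / 2 - cd a) 0 with h | h <;> rcases le_total (1 / 2 - cd b) 0 with h' | h'
  · rw [max_eq_right h, max_eq_right h']; linarith
  · rw [max_eq_right h, max_eq_left h']; linarith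
  · rw [max_eq_left h, max_eq_right h']; linarith
  · rw [max_eq_left h, max_eq_left h']; linarith

theorem sum_shift {F : ℤ → ℝ} {P : ℕ} (hF : ∀ j, F (j + P) = F j) (q : ℤ) :
    ∑ i ∈ range P, F (q + i) = ∑ i ∈ range P, F i := by
  have step : ∀ q : ℤ, ∑ i ∈ range P, F (q + 1 + i) = ∑ i ∈ range P, F (q + i) := by
    intro q
    have h1 := sum_range_succ (fun i : ℕ => F (q + i)) P
    have h2 := sum_range_succ' (fun i : ℕ => F (q + i)) P
    have h3 : ∑ i ∈ range P, F (q + ((i + 1 : ℕ) : ℤ)) = ∑ i ∈ range P, F (q + 1 + i) :=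
      sum_congr rfl fun i _ => by congr 1; push_cast; ring
    rw [h3] at h2
    rw [hF] at h1
    simp only [Nat.cast_zero, add_zero] at h2
    linarith
  induction q using Int.induction_on with
  | zero => simp
  | succ q ih => rw [step, ih]
  | pred q ih =>
    rw [← ih, ← step]
    exact sum_congr rfl fun i _ => by congr 1; ring

theorem iter_add {x : ℤ → ℝ} {P : ℤ} {c : ℝ} (h : ∀ j, x (j + P) = x j + c) (j k : ℤ) :
    x (j + P * k) = x j + c * k := by
  induction k using Int.induction_on with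
  | zero => simp
  | succ k ih =>
    have : j + P * (k + 1) = j + P * k + P := by ring
    rw [this, h, ih]; push_cast; ring
  | pred k ih =>
    have h1 := h (j + P * (-k - 1))
    have : j + P * (-k - 1) + P = j + P * -k := by ring
    rw [this, ih] at h1
    push_cast at h1 ⊢
    linarith

theorem mono_of_step {x : ℤ → ℝ} (h : ∀ j, x j ≤ x (j + 1)) : Monotone x :=
  monotone_int_of_le_succ h

open Classical in
/-- Indicator of the closed arc from `a` to `b`. -/
noncomputable def chi (a b z : ℝ) : ℝ := if ∃ k : ℤ, a ≤ z + 2 * k ∧ z + 2 * k ≤ b then 1 else 0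

theorem chi_nonneg (a b z : ℝ) : 0 ≤ chi a b z := by
  unfold chi; split_ifs <;> norm_num

theorem chi_eq_one {a b z : ℝ} (k : ℤ) (h1 : a ≤ z + 2 * k) (h2 : z + 2 * k ≤ b) :
    chi a b z = 1 := by
  unfold chi; rw [if_pos ⟨k, h1, h2⟩]

theorem chi_shift (a b z c : ℝ) : chi (a + c) (b + c) (z + c) = chi a b z := by
  unfold chi
  congr 1
  apply propext
  constructor <;> rintro ⟨k, h1, h2⟩ <;> exact ⟨k, by linarith, by linarith⟩

theorem chi_two (a b z : ℝ) : chi a b (z + 2) = chi a b z := by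
  unfold chi
  congr 1
  apply propext
  constructor <;> rintro ⟨k, h1, h2⟩
  · exact ⟨k + 1, by push_cast; linarith, by push_cast; linarith⟩
  · exact ⟨k - 1, by push_cast; linarith, by push_cast; linarith⟩

theorem arc_upper {x : ℤ → ℝ} {P : ℕ} {ε : ℝ} (h0 : ∀ j, x j ≤ x (j + 1))
    (h1 : ∀ j, x (j + 1) ≤ x j + ε) (h2 : ∀ j, x (j + P) = x j + 2) {a b : ℝ} (hab : a ≤ b) :
    ∑ i ∈ range P, (x (i + 1) - x i) * chi a b (x i) ≤ b - a + ε := by
  have hm := mono_of_step h0
  have hε : 0 ≤ ε := by linarith [h0 0, h1 0]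
  obtain ⟨q, hq, hq'⟩ : ∃ q : ℤ, a ≤ x q ∧ ∀ z, a ≤ x z → q ≤ z := by
    refine Int.exists_least_of_bdd ⟨P * (⌊(a - x 0) / 2⌋ - 1), fun z hz => ?_⟩
      ⟨P * ⌈(a - x 0) / 2⌉, ?_⟩
    · by_contra hc
      have h3 := hm (not_le.1 hc).le
      have h4 := iter_add h2 0 (⌊(a - x 0) / 2⌋ - 1)
      rw [zero_add] at h4
      have h5 := Int.floor_le ((a - x 0) / 2)
      push_cast at h4
      linarith
    · have h4 := iter_add h2 0 ⌈(a - x 0) / 2⌉
      rw [zero_add] at h4
      have h5 := Int.le_ceil ((a - x 0) / 2)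
      linarith
  have hq1 : x (q - 1) < a := by
    by_contra hc
    have := hq' _ (not_lt.1 hc)
    omega
  rw [← sum_shift (F := fun j => (x (j + 1) - x j) * chi a b (x j)) (P := P) (fun j => by
    have : j + P + 1 = j + 1 + P := by ring
    simp only [this, h2, chi_two]; ring) q]
  have key : ∀ n : ℕ, n ≤ P → ∑ i ∈ range n, (x (q + i + 1) - x (q + i)) * chi a b (x (q + i))
      ≤ x (q + n) - a ∧ ∑ i ∈ range n, (x (q + i + 1) - x (q + i)) * chi a b (x (q + i))
      ≤ b - a + ε := by
    intro n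
    induction n with
    | zero => intro _; simp; constructor <;> linarith
    | succ n ih =>
      intro hn
      obtain ⟨i1, i2⟩ := ih (by omega)
      rw [sum_range_succ]
      have e : q + ((n + 1 : ℕ) : ℤ) = q + n + 1 := by push_cast; ring
      rw [e]
      have a0 := h0 (q + n)
      have a1 := h1 (q + n)
      unfold chi at *
      split_ifs with hc
      · obtain ⟨k, k1, k2⟩ := hc
        have a2 : x (q + n) ≤ x (q - 1 + P) := hm (by omega)
        rw [h2] at a2
        have a3 : (-1 : ℝ) < k := by linarith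
        have a4 : (0 : ℤ) ≤ k := by
          have : (-1 : ℤ) < k := by exact_mod_cast a3
          omega
        have a5 : (0 : ℝ) ≤ k := by exact_mod_cast a4
        constructor <;> linarith
      · constructor <;> linarith
  exact (key P le_rfl).2

theorem sum_step {x : ℤ → ℝ} (q : ℤ) (n : ℕ) :
    ∑ i ∈ range n, (x (q + i + 1) - x (q + i)) = x (q + n) - x q := by
  induction n with
  | zero => simp
  | succ n ih =>
    rw [sum_range_succ, ih]
    have e : q + ((n + 1 : ℕ) : ℤ) = q + n + 1 := by push_cast; ring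
    rw [e]; ring

theorem arc_lower {x : ℤ → ℝ} {P : ℕ} {ε : ℝ} (h0 : ∀ j, x j ≤ x (j + 1))
    (h1 : ∀ j, x (j + 1) ≤ x j + ε) (h2 : ∀ j, x (j + P) = x j + 2) {a b : ℝ}
    (hab : b ≤ a + 2) :
    b - a - ε ≤ ∑ i ∈ range P, (x (i + 1) - x i) * chi a b (x i) := by
  have h3 := arc_upper h0 h1 h2 hab
  have h4 := sum_step (x := x) 0 P
  rw [h2] at h4
  simp only [zero_add] at h4
  have h5 : ∑ i ∈ range P, (x (i + 1) - x i) ≤
      ∑ i ∈ range P, ((x (i + 1) - x i) * chi a b (x i) +
        (x (i + 1) - x i) * chi b (a + 2) (x i)) := by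
    refine sum_le_sum fun i _ => ?_
    have a0 := sub_nonneg.2 (h0 i)
    have a1 := Int.le_ceil ((a - x i) / 2)
    have a2 := Int.ceil_lt_add_one ((a - x i) / 2)
    rcases le_total (x i + 2 * (⌈(a - x i) / 2⌉ : ℤ)) b with h | h
    · rw [chi_eq_one ⌈(a - x i) / 2⌉ (by linarith) h]
      nlinarith [mul_nonneg a0 (chi_nonneg b (a + 2) (x i))]
    · rw [chi_eq_one (a := b) ⌈(a - x i) / 2⌉ h (by linarith)]
      nlinarith [mul_nonneg a0 (chi_nonneg a b (x i))]
  rw [sum_add_distrib] at h5
  linarith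

end Pool.Agent.P.MP_3c7b76_co
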