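import Pool.Agent.P.MP_3c7b76_co.Proj
import Pool.Agent.P.MP_3c7b76_co.Kak

/-! The abstract core: a rotating halving family has a member with many same side pairs. -/

namespace Pool.Agent.P.MP_3c7b76_co

open Finset Filter Topology

variable {M : ℕ}

/-- Cumulative positions. -/
noncomputable def xs (ω : ZMod M → ℝ) (j : ℤ) : ℝ :=
  ∑ i ∈ Ico 0 j, ω (i : ℤ) - ∑ i ∈ Ico j 0, ω (i : ℤ)

open Classical in
/-- Height function. -/
noncomputable def gs (ω : ZMod M → ℝ) (s : ℤ → Prop) (q : ℤ) : ℝ :=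
  1 / 2 - ∑ i ∈ range M, if s (q + i) then 0 else ω ((q + i : ℤ))

theorem xs_step (ω : ZMod M → ℝ) (j : ℤ) : xs ω (j + 1) - xs ω j = ω j := by
  unfold xs
  rcases le_or_gt 0 j with h | h
  · have e : Ico 0 (j + 1) = insert j (Ico 0 j) := by
      ext i; simp only [mem_Ico, mem_insert]; omega
    rw [e, sum_insert (by simp), Ico_eq_empty_of_le h, Ico_eq_empty_of_le (by omega : 0 ≤ j + 1)]
    ring
  · have e : Ico j 0 = insert j (Ico (j + 1) 0) := by
      ext i; simp only [mem_Ico, mem_insert]; omega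
    rw [e, sum_insert (by simp), Ico_eq_empty_of_le h.le,
      Ico_eq_empty_of_le (by omega : j + 1 ≤ 0)]
    ring

theorem continuous_xs (j : ℤ) : Continuous fun ω : ZMod M → ℝ => xs ω j := by
  unfold xs
  fun_prop

theorem continuous_gs (s : ℤ → Prop) (j : ℤ) : Continuous fun ω : ZMod M → ℝ => gs ω s j := by
  unfold gs
  refine continuous_const.sub (continuous_finsetSum _ fun i _ => ?_)
  split_ifs <;> fun_prop

theorem sum_zmod [NeZero M] (f : ZMod M → ℝ) : ∑ z, f z = ∑ i ∈ range M, f (i : ℕ) := by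
  refine sum_nbij' (fun z => z.val) (fun i => (i : ZMod M)) ?_ ?_ ?_ ?_ ?_
  · intro z _; exact mem_range.2 (ZMod.val_lt z)
  · intro i _; exact mem_univ _
  · intro z _; simp
  · intro i hi; exact ZMod.val_cast_of_lt (mem_range.1 hi)
  · intro z _; simp

theorem sum_om [NeZero M] {ω : ZMod M → ℝ} (h1 : ∑ z, ω z = 1) (q : ℤ) :
    ∑ i ∈ range M, ω ((q + i : ℤ)) = 1 := by
  rw [sum_shift (F := fun j => ω (j : ℤ)) (fun j => by simp) q, ← h1, sum_zmod]
  simp

theorem pat_of [NeZero M] {ω : ZMod M → ℝ} (h0 : ∀ z, 0 ≤ ω z) (h1 : ∑ z, ω z = 1)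
    {s : ℤ → Prop} (hs : ∀ j, s (j + M) ↔ ¬ s j) : Pat M s (xs ω) (gs ω s) := by
  classical
  have step : ∀ j, gs ω s (j + 1) = gs ω s j + (if s j then 0 else ω j) -
      (if s (j + M) then 0 else ω ((j + M : ℤ))) := by
    intro j
    have a1 := sum_range_succ (fun i : ℕ => if s (j + i) then 0 else ω ((j + i : ℤ))) M
    have a2 := sum_range_succ' (fun i : ℕ => if s (j + i) then 0 else ω ((j + i : ℤ))) M
    have a3 : ∀ i : ℕ, j + ((i + 1 : ℕ) : ℤ) = j + 1 + i := fun i => by push_cast; ring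
    simp only [a3, Nat.cast_zero, add_zero] at a2
    unfold gs
    linarith
  refine ⟨fun j => by linarith [xs_step ω j, h0 j], fun j => ?_, hs, fun j hj => ?_,
    fun j hj => ?_, fun j => ?_⟩
  · have := sum_step (x := xs ω) j M
    simp only [xs_step, sum_om h1] at this
    linarith
  · rw [step, if_neg hj, if_pos ((hs j).2 hj), xs_step]; ring
  · rw [step, if_pos hj, if_neg (fun h => (hs j).1 h hj), xs_step]; simp
  · have a1 := sum_om h1 j
    have a2 : ∑ i ∈ range M, ((if s (j + M + i) then 0 else ω ((j + M + i : ℤ))) +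
        (if s (j + i) then 0 else ω ((j + i : ℤ)))) = ∑ i ∈ range M, ω ((j + i : ℤ)) := by
      refine sum_congr rfl fun i _ => ?_
      have e : j + M + i = j + i + M := by ring
      rw [e, hs]
      by_cases hc : s (j + i) <;> simp [hc]
    rw [sum_add_distrib] at a2
    unfold gs
    linarith

theorem exists_fix [NeZero M] {V : Type} [Fintype V] [Nonempty V] (σ : V → ℤ → Prop)
    (h1 : ∀ a j, σ a (j + M) ↔ ¬ σ a j) {η : ℝ} (hη : 0 < η) :
    ∃ (ω : ZMod M → ℝ) (W : V → ℕ → ℝ), (∀ z, 0 ≤ ω z) ∧ ∑ z, ω z = 1 ∧ (∀ a i, 0 ≤ W a i) ∧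
      (∀ a, ∑ i ∈ range (2 * M), W a i = 1) ∧ (∀ a (i : ℕ), ¬ Well (σ a) i → W a i = 0) ∧
      (∀ a, ∀ θ ∈ Icc (-(M : ℤ)) (2 * M), gs ω (σ a) θ - η <
        ∑ i ∈ range (2 * M), W a i * tent (xs ω i - xs ω θ)) ∧
      ∀ z : ZMod M, (∑ a, (W a z.val + W a (M + z.val))) / Fintype.card V = ω z := by
  have hc : (0 : ℝ) < Fintype.card V := by exact_mod_cast Fintype.card_pos
  obtain ⟨ω, a0, a1, W, ⟨b0, b1, b2, b3⟩, b4⟩ := kak (ι := ZMod M) (F := V → ℕ → ℝ)
    (fun ω => {W | (∀ a i, 0 ≤ W a i) ∧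
      (∀ a, ∑ i ∈ range (2 * M), W a i = 1) ∧ (∀ a (i : ℕ), ¬ Well (σ a) i → W a i = 0) ∧
      (∀ a, ∀ θ ∈ Icc (-(M : ℤ)) (2 * M), gs ω (σ a) θ - η <
        ∑ i ∈ range (2 * M), W a i * tent (xs ω i - xs ω θ))})
    (by
      rintro ω W ⟨b0, b1, b2, b3⟩ W' ⟨c0, c1, c2, c3⟩ p q hp hq hpq
      refine ⟨fun a i => ?_, fun a => ?_, fun a i hi => ?_, fun a θ hθ => ?_⟩
      · exact add_nonneg (mul_nonneg hp (b0 a i)) (mul_nonneg hq (c0 a i))
      · simp only [Pi.add_apply, Pi.smul_apply, smul_eq_mul, sum_add_distrib, ← mul_sum, b1, c1]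
        linarith
      · simp [b2 a i hi, c2 a i hi]
      · simp only [Pi.add_apply, Pi.smul_apply, smul_eq_mul, add_mul, mul_assoc, sum_add_distrib,
          ← mul_sum]
        have d1 := b3 a θ hθ
        have d2 := c3 a θ hθ
        rcases hp.eq_or_lt with rfl | hp'
        · have : q = 1 := by linarith
          rw [this]; linarith
        · have d3 := mul_lt_mul_of_pos_left d1 hp'
          have d4 := mul_le_mul_of_nonneg_left d2.le hq
          have d5 : p * (gs ω (σ a) θ - η) + q * (gs ω (σ a) θ - η) = gs ω (σ a) θ - η := by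
            rw [← add_mul, hpq, one_mul]
          linarith)
    (by
      intro ω a0 a1
      choose W b0 b1 b2 b3 using fun a => (pat_of a0 a1 (h1 a)).proj
      refine ⟨W, ?_⟩
      have : ∀ᶠ y in 𝓝 ω, ∀ a, ∀ θ ∈ Icc (-(M : ℤ)) (2 * M), gs y (σ a) θ - η <
          ∑ i ∈ range (2 * M), W a i * tent (xs y i - xs y θ) := by
        refine eventually_all.2 fun a => (eventually_all_finset _).2 fun θ _ => ?_
        refine ContinuousAt.eventually_lt
          ((continuous_gs _ _).sub continuous_const).continuousAt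
          (continuous_finsetSum _ fun i _ => continuous_const.mul
            (continuous_tent.comp ((continuous_xs _).sub (continuous_xs _)))).continuousAt ?_
        linarith [b3 a θ]
      exact this.mono fun y hy => ⟨b0, b1, b2, hy⟩)
    (fun W z => (∑ a, (W a z.val + W a (M + z.val))) / Fintype.card V) (by fun_prop)
    (by
      rintro ω W ⟨b0, b1, -, -⟩
      refine ⟨fun z => div_nonneg (sum_nonneg fun a _ => add_nonneg (b0 _ _) (b0 _ _)) hc.le, ?_⟩
      rw [← sum_div, sum_comm, div_eq_one_iff_eq hc.ne']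
      have : ∀ a, ∑ z : ZMod M, (W a z.val + W a (M + z.val)) = 1 := fun a => by
        rw [sum_zmod, ← b1 a, two_mul, sum_range_add, ← sum_add_distrib]
        exact sum_congr rfl fun i hi => by rw [ZMod.val_cast_of_lt (mem_range.1 hi)]
      simp [this])
  exact ⟨ω, W, a0, a1, b0, b1, b2, b3, fun z => congrFun b4 z⟩

open Classical in
theorem core [NeZero M] {V : Type} [Fintype V] [Nonempty V] (σ : V → ℤ → Prop)
    (h1 : ∀ a j, σ a (j + M) ↔ ¬ σ a j)
    (h3 : ∀ j a b, Well (σ a) j → Well (σ b) j → a = b)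
    (h4 : ∀ a b, ∃ θ : ℤ, -(M : ℤ) ≤ θ ∧ θ ≤ M ∧ ∀ j, θ ≤ j → j < θ + M → σ b j → σ a j)
    (H : Finset (V × V)) {y η ε : ℝ} (hη : 0 < η) (hy0 : 0 ≤ y) (hy : y ≤ 1 / 2) (hε : ε ≤ 1)
    (hε' : 2 ≤ ε * Fintype.card V) :
    ∃ j : ℤ, y * H.card - 2 * η * H.card - (Fintype.card V : ℝ) ^ 2 * (y + 2 * ε) ^ 2 / 2 ≤
      ((H.filter fun e => σ e.1 j ↔ σ e.2 j).card : ℝ) := by
  have hc : (0 : ℝ) < Fintype.card V := by exact_mod_cast Fintype.card_pos
  obtain ⟨ω, W, a0, a1, b0, b1, b2, b3, b4⟩ := exists_fix σ h1 hη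
  have hp := fun a => pat_of a0 a1 (h1 a)
  have hp0 := hp (Classical.arbitrary V)
  have m1 : ∀ i < 2 * M, ∑ a, W a i ≤ 1 := by
    intro i hi
    by_cases hw : ∃ a, Well (σ a) i
    · obtain ⟨a, ha⟩ := hw
      rw [sum_eq_single a (fun b _ hb => b2 b i fun h => hb (h3 _ _ _ h ha)) (by simp), ← b1 a]
      exact single_le_sum (fun j _ => b0 a j) (mem_range.2 hi)
    · rw [sum_eq_zero fun a _ => b2 a i fun h => hw ⟨a, h⟩]
      exact zero_le_one
  have m2 : ∀ j, xs ω (j + 1) ≤ xs ω j + ε := by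
    intro j
    have c1 := xs_step ω j
    have c2 := b4 j
    have c3 := ZMod.val_lt (j : ZMod M)
    rw [sum_add_distrib, div_eq_iff hc.ne'] at c2
    have c4 := m1 (j : ZMod M).val (by omega)
    have c5 := m1 (M + (j : ZMod M).val) (by omega)
    have c6 : ω j * Fintype.card V ≤ ε * Fintype.card V := by linarith
    have c7 := le_of_mul_le_mul_right c6 hc
    linarith
  have m3 := phi_le (μ := fun i => ∑ a, W a i) (N := Fintype.card V) (y := y) hp0.mono m2 hp0.per
    (fun i => sum_nonneg fun a _ => b0 a i) (fun i hi => by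
      have c2 := b4 (i : ℕ)
      rw [ZMod.val_cast_of_lt hi, sum_add_distrib, div_eq_iff hc.ne'] at c2
      rw [xs_step, c2, mul_comm]; simp) hy0 (by linarith) hc.le
  have m4 : ∀ a b, y - 2 * η - ∑ j ∈ range M, (if σ a j ↔ σ b j then ω (j : ℤ) else 0) ≤
      ∑ i ∈ range (2 * M), ∑ j ∈ range (2 * M),
        W a i * W b j * max (y - cd (xs ω i - xs ω j + 1)) 0 := by
    intro a b
    obtain ⟨θ, t1, t2, t3⟩ := h4 a b
    have c1 := b3 a θ (mem_Icc.2 ⟨t1, by omega⟩)
    have c2 := b3 b (θ + M) (mem_Icc.2 ⟨by omega, by omega⟩)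
    rw [(hp b).neg, hp0.per] at c2
    have c3 : 1 - gs ω (σ a) θ + gs ω (σ b) θ ≤
        ∑ j ∈ range M, (if σ a j ↔ σ b j then ω (j : ℤ) else 0) := by
      rw [← sum_shift (F := fun j => if σ a j ↔ σ b j then ω (j : ℤ) else 0) (fun j => by
        simp only [h1, not_iff_not]; simp) θ]
      have d1 := sum_om a1 θ
      have d2 : ∑ i ∈ range M, (ω ((θ + i : ℤ)) + (if σ a (θ + i) then 0 else ω ((θ + i : ℤ))) -
          (if σ b (θ + i) then 0 else ω ((θ + i : ℤ)))) ≤
          ∑ i ∈ range M, (if σ a (θ + i) ↔ σ b (θ + i) then ω ((θ + i : ℤ)) else 0) := by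
        refine sum_le_sum fun i hi => ?_
        have d3 := t3 (θ + i) (by omega) (by have := mem_range.1 hi; omega)
        by_cases e1 : σ a (θ + i) <;> by_cases e2 : σ b (θ + i) <;> simp [e1, e2]
        exact absurd (d3 e2) e1
      rw [sum_sub_distrib, sum_add_distrib] at d2
      unfold gs
      linarith
    have c4 : ∑ i ∈ range (2 * M), ∑ j ∈ range (2 * M), W a i * W b j *
        (y - 1 + tent (xs ω i - xs ω θ) + tent (xs ω j - (xs ω θ + 1))) ≤
        ∑ i ∈ range (2 * M), ∑ j ∈ range (2 * M),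
        W a i * W b j * max (y - cd (xs ω i - xs ω j + 1)) 0 := by
      refine sum_le_sum fun i _ => sum_le_sum fun j _ =>
        mul_le_mul_of_nonneg_left ?_ (mul_nonneg (b0 _ _) (b0 _ _))
      have := tent_pair hy (xs ω i - xs ω θ) (xs ω j - (xs ω θ + 1))
      have e : xs ω i - xs ω θ - (xs ω j - (xs ω θ + 1)) = xs ω i - xs ω j + 1 := by ring
      rwa [e] at this
    have c5 : ∑ i ∈ range (2 * M), ∑ j ∈ range (2 * M), W a i * W b j *
        (y - 1 + tent (xs ω i - xs ω θ) + tent (xs ω j - (xs ω θ + 1))) =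
        y - 1 + ∑ i ∈ range (2 * M), W a i * tent (xs ω i - xs ω θ) +
          ∑ j ∈ range (2 * M), W b j * tent (xs ω j - (xs ω θ + 1)) := by
      have d1 : ∀ i, ∑ j ∈ range (2 * M), W a i * W b j *
          (y - 1 + tent (xs ω i - xs ω θ) + tent (xs ω j - (xs ω θ + 1))) =
          W a i * (y - 1 + ∑ j ∈ range (2 * M), W b j * tent (xs ω j - (xs ω θ + 1))) +
            W a i * tent (xs ω i - xs ω θ) := by
        intro i
        have d2 : ∀ j, W a i * W b j *
            (y - 1 + tent (xs ω i - xs ω θ) + tent (xs ω j - (xs ω θ + 1))) =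
            W a i * (y - 1 + tent (xs ω i - xs ω θ)) * W b j +
              W a i * (W b j * tent (xs ω j - (xs ω θ + 1))) := fun j => by ring
        simp only [d2, sum_add_distrib, ← mul_sum, b1]
        ring
      simp only [d1, sum_add_distrib, ← sum_mul, b1]
      ring
    linarith
  obtain ⟨j0, -, hj0⟩ := exists_max_image (range M)
    (fun j : ℕ => ((H.filter fun e => σ e.1 j ↔ σ e.2 j).card : ℝ))
    ⟨0, mem_range.2 hp0.pos⟩
  refine ⟨j0, ?_⟩
  have m5 : ∑ e ∈ H, ∑ j ∈ range M, (if σ e.1 j ↔ σ e.2 j then ω (j : ℤ) else 0) ≤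
      ((H.filter fun e => σ e.1 j0 ↔ σ e.2 j0).card : ℝ) := by
    rw [sum_comm]
    have d1 := sum_om a1 0
    simp only [zero_add] at d1
    calc _ = ∑ j ∈ range M, ω (j : ℤ) * ((H.filter fun e => σ e.1 j ↔ σ e.2 j).card : ℝ) :=
          sum_congr rfl fun j _ => by rw [← sum_filter, sum_const, nsmul_eq_mul, mul_comm]
      _ ≤ ∑ j ∈ range M, ω (j : ℤ) * ((H.filter fun e => σ e.1 j0 ↔ σ e.2 j0).card : ℝ) :=
          sum_le_sum fun j hj => mul_le_mul_of_nonneg_left (hj0 j hj) (a0 _)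
      _ = _ := by rw [← sum_mul, d1, one_mul]
  have m6 := sum_le_sum fun (e : V × V) (_ : e ∈ H) => m4 e.1 e.2
  have m7 : ∑ e ∈ H, ∑ i ∈ range (2 * M), ∑ j ∈ range (2 * M),
      W e.1 i * W e.2 j * max (y - cd (xs ω i - xs ω j + 1)) 0 ≤
      ∑ e : V × V, ∑ i ∈ range (2 * M), ∑ j ∈ range (2 * M),
      W e.1 i * W e.2 j * max (y - cd (xs ω i - xs ω j + 1)) 0 :=
    sum_le_sum_of_subset_of_nonneg (subset_univ _) fun e _ _ => sum_nonneg fun i _ =>
      sum_nonneg fun j _ => mul_nonneg (mul_nonneg (b0 _ _) (b0 _ _)) (le_max_right _ _)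
  have m8 : ∑ e : V × V, ∑ i ∈ range (2 * M), ∑ j ∈ range (2 * M),
      W e.1 i * W e.2 j * max (y - cd (xs ω i - xs ω j + 1)) 0 =
      ∑ i ∈ range (2 * M), ∑ j ∈ range (2 * M),
        (∑ a, W a i) * (∑ a, W a j) * max (y - cd (xs ω i - xs ω j + 1)) 0 := by
    rw [sum_comm]
    refine sum_congr rfl fun i _ => ?_
    rw [sum_comm]
    refine sum_congr rfl fun j _ => ?_
    rw [sum_mul_sum, ← sum_mul, Fintype.sum_prod_type]
  rw [sum_sub_distrib, sum_const, nsmul_eq_mul] at m6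
  linarith

end Pool.Agent.P.MP_3c7b76_co
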