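import Pool.Agent.P.MP_3c7b76_co.Chain

/-! The rotating family of halving sets of a planar point family. -/

namespace Pool.Agent.P.MP_3c7b76_co

open Finset

theorem exists_grid (C : Finset ℝ) : ∃ (K : ℕ) (t : ℕ → ℝ), Monotone t ∧ (∀ c ∈ C, t 0 < c) ∧
    (∀ c ∈ C, c ≤ t K) ∧ ∀ i, ∀ c ∈ C, c ≤ t i ∨ t (i + 1) ≤ c := by
  obtain ⟨lo, hlo⟩ : ∃ lo, ∀ c ∈ C, lo < c := by
    obtain ⟨b, hb⟩ := C.bddBelow
    exact ⟨b - 1, fun c hc => by linarith [hb hc]⟩
  obtain ⟨K, hK⟩ : ∃ K, (insert lo C).card = K + 1 :=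
    Nat.exists_eq_succ_of_ne_zero (card_pos.2 (insert_nonempty _ _)).ne'
  set e := (insert lo C).orderEmbOfFin hK with he
  have hr : ∀ c ∈ insert lo C, ∃ j, e j = c := fun c hc => by
    have : c ∈ Set.range e := by rw [he, range_orderEmbOfFin]; exact hc
    exact this
  refine ⟨K, fun i => e ⟨min i K, by omega⟩, fun i j hij => e.monotone ?_, fun c hc => ?_,
    fun c hc => ?_, fun i c hc => ?_⟩
  · rw [Fin.mk_le_mk]; omega
  · obtain ⟨j, rfl⟩ := hr c (mem_insert_of_mem hc)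
    obtain ⟨j0, hj0⟩ := hr lo (mem_insert_self _ _)
    have h1 := hlo _ hc
    rw [← hj0, e.lt_iff_lt, Fin.lt_def] at h1
    simp only [e.lt_iff_lt, Fin.lt_def]
    omega
  · obtain ⟨j, rfl⟩ := hr c (mem_insert_of_mem hc)
    simp only [e.le_iff_le, Fin.le_def]
    omega
  · obtain ⟨j, rfl⟩ := hr c (mem_insert_of_mem hc)
    simp only [e.le_iff_le, Fin.le_def]
    omega

open Classical in
theorem rot {V : Type} [Fintype V] (X Y : V → ℝ) {n : ℕ} (hn : Fintype.card V = 2 * n) :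
    ∃ (M : ℕ) (σ : V → ℤ → Prop), 0 < M ∧ (∀ a j, σ a (j + M) ↔ ¬ σ a j) ∧
      (∀ j, (univ.filter fun a => σ a j).card = n) ∧
      (∀ j a b, ¬ σ a (j - 1) ∧ σ a j → ¬ σ b (j - 1) ∧ σ b j → a = b) ∧
      (∀ a b, ∃ θ : ℤ, -(M : ℤ) ≤ θ ∧ θ ≤ M ∧ ∀ j, θ ≤ j → j < θ + M → σ b j → σ a j) ∧
      ∀ j, ∃ α β : ℝ, (α ≠ 0 ∨ β ≠ 0) ∧
        ∀ a b, σ a j → ¬ σ b j → α * X b + β * Y b ≤ α * X a + β * Y a := by
  obtain ⟨κ, hκ⟩ : ∃ κ : V → ℝ, Function.Injective κ :=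
    ⟨fun a => ((Fintype.equivFin V a : ℕ) : ℝ), fun a b h =>
      (Fintype.equivFin V).injective (Fin.ext (Nat.cast_injective h))⟩
  obtain ⟨K, t, t1, t2, t3, t4⟩ := exists_grid
    (univ.image fun e : V × V => (Y e.2 - Y e.1) / (X e.1 - X e.2))
  have crit : ∀ a b, X b < X a → ∃ c, t 0 < c ∧ c ≤ t K ∧ (∀ i, c ≤ t i ∨ t (i + 1) ≤ c) ∧
      Y b - Y a = c * (X a - X b) := fun a b h => by
    have hm : (Y b - Y a) / (X a - X b) ∈
        univ.image fun e : V × V => (Y e.2 - Y e.1) / (X e.1 - X e.2) :=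
      mem_image.2 ⟨(a, b), mem_univ _, rfl⟩
    exact ⟨_, t2 _ hm, t3 _ hm, fun i => t4 i _ hm,
      (div_mul_cancel₀ _ (sub_pos.2 h).ne').symm⟩
  set k : ℕ → V → ℝ ×ₗ ℝ ×ₗ ℝ := fun i a => if i ≤ K then
    toLex (t i * X a + Y a, toLex (X a, κ a)) else
    toLex (-(t 0 * X a + Y a), toLex (-X a, -κ a)) with hk
  have k1 : ∀ i ≤ K, ∀ a b, k i a < k i b ↔ t i * X a + Y a < t i * X b + Y b ∨
      t i * X a + Y a = t i * X b + Y b ∧ (X a < X b ∨ X a = X b ∧ κ a < κ b) := by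
    intro i hi a b
    simp only [hk, if_pos hi, Prod.Lex.toLex_lt_toLex]
  have k2 : ∀ a b, k (K + 1) a < k (K + 1) b ↔ k 0 b < k 0 a := by
    intro a b
    rw [k1 0 (Nat.zero_le _)]
    simp only [hk, if_neg (Nat.not_succ_le_self K), Prod.Lex.toLex_lt_toLex, neg_lt_neg_iff,
      neg_inj, eq_comm]
  obtain ⟨M, σ, h0, h1, h2, h3, h4, h5⟩ := chain hn (Nat.succ_pos K) k (fun i a b h => by
    apply hκ
    simp only [hk] at h
    split_ifs at h
    · exact congrArg (fun z => (ofLex (ofLex z).2).2) h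
    · exact neg_inj.1 (congrArg (fun z => (ofLex (ofLex z).2).2) h)) k2 (by
    intro a b i i' i1 i2 h0 h1
    rcases i2.eq_or_lt with rfl | i3
    · exact (k2 a b).2 h0
    · have i4 : i' ≤ K := Nat.lt_succ_iff.1 i3
      rw [k1 0 (Nat.zero_le _)] at h0
      rw [k1 i (i1.trans i4)] at h1
      rw [k1 i' i4]
      have m1 := t1 i1
      rcases lt_trichotomy (X a) (X b) with hx | hx | hx
      · have m2 := mul_nonneg (sub_nonneg.2 m1) (sub_pos.2 hx).le
        have m3 : t i * X a + Y a ≤ t i * X b + Y b := h1.elim le_of_lt fun h => h.1.le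
        have m4 : t i' * X a + Y a ≤ t i' * X b + Y b := by nlinarith
        exact m4.lt_or_eq.imp id fun h => ⟨h, Or.inl hx⟩
      · rw [hx] at h1 ⊢
        simpa using h1
      · obtain ⟨c, c1, -, -, c2⟩ := crit a b hx
        have m2 := mul_pos (sub_pos.2 c1) (sub_pos.2 hx)
        have m3 : t 0 * X b + Y b ≤ t 0 * X a + Y a := h0.elim le_of_lt fun h => h.1.le
        nlinarith)
  refine ⟨M, σ, h0, h1, h2, h3, h4, fun j => ?_⟩
  obtain ⟨i, hi, h6⟩ := h5 j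
  obtain ⟨α, β, g1, g2⟩ : ∃ α β : ℝ, (α ≠ 0 ∨ β ≠ 0) ∧ ∀ a b, α * X b + β * Y b < α * X a + β * Y a →
      k i b < k i a ∧ k (i + 1) b < k (i + 1) a := by
    rcases (Nat.lt_succ_iff.1 hi).eq_or_lt with rfl | hi'
    · refine ⟨1, 0, Or.inl one_ne_zero, fun a b h => ?_⟩
      have hx : X b < X a := by linarith
      obtain ⟨c, c1, c2, -, c3⟩ := crit a b hx
      rw [k2, k1 _ le_rfl, k1 0 (Nat.zero_le _)]
      have m2 := mul_pos (sub_pos.2 c1) (sub_pos.2 hx)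
      have m3 := mul_nonneg (sub_nonneg.2 c2) (sub_pos.2 hx).le
      have m4 : t i * X b + Y b ≤ t i * X a + Y a := by nlinarith
      exact ⟨m4.lt_or_eq.imp id fun h => ⟨h, Or.inl hx⟩, Or.inl (by nlinarith)⟩
    · refine ⟨t (i + 1), 1, Or.inr one_ne_zero, fun a b h => ?_⟩
      rw [k1 _ hi'.le, k1 (i + 1) hi']
      refine ⟨?_, Or.inl (by linarith)⟩
      have m1 := t1 (Nat.le_succ i)
      rcases lt_trichotomy (X a) (X b) with hx | hx | hx
      · have m2 := mul_nonneg (sub_nonneg.2 m1) (sub_pos.2 hx).le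
        exact Or.inl (by nlinarith)
      · rw [hx] at h ⊢
        exact Or.inl (by linarith)
      · obtain ⟨c, -, -, c2, c3⟩ := crit a b hx
        rcases c2 i with c4 | c4
        · have m3 := mul_nonneg (sub_nonneg.2 c4) (sub_pos.2 hx).le
          have m4 : t i * X b + Y b ≤ t i * X a + Y a := by nlinarith
          exact m4.lt_or_eq.imp id fun h => ⟨h, Or.inl hx⟩
        · have m3 := mul_nonneg (sub_nonneg.2 c4) (sub_pos.2 hx).le
          nlinarith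
  rcases h6 with h6 | h6
  · refine ⟨α, β, g1, fun a b ha hb => not_lt.1 fun h => hb ?_⟩
    exact h6 b a (g2 b a h).1 (g2 b a h).2 ha
  · refine ⟨-α, -β, by simpa using g1, fun a b ha hb => not_lt.1 fun h => hb ?_⟩
    have h' : α * X b + β * Y b < α * X a + β * Y a := by linarith
    exact h6 a b (g2 a b h').1 (g2 a b h').2 ha

end Pool.Agent.P.MP_3c7b76_co
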