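import Pool.Agent.P.MP_3c7b76_co.Core
import Pool.Agent.P.MP_3c7b76_co.Rot

/-! Lines from separating functionals and the final count. -/

namespace Pool.Agent.P.MP_3c7b76_co

open Finset

theorem exists_line {V : Type} [Fintype V] (p : V → EuclideanSpace ℝ (Fin 2)) (σ : V → Prop)
    {α β : ℝ} (h0 : α ≠ 0 ∨ β ≠ 0)
    (h : ∀ a b, σ a → ¬ σ b → α * p b 0 + β * p b 1 ≤ α * p a 0 + β * p a 1) :
    ∃ L : AffineSubspace ℝ (EuclideanSpace ℝ (Fin 2)), Module.finrank ℝ L.direction = 1 ∧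
      ∀ a b, σ a → ¬ σ b →
        ((L : Set (EuclideanSpace ℝ (Fin 2))) ∩ segment ℝ (p a) (p b)).Nonempty := by
  classical
  obtain ⟨z, hz⟩ : ∃ z : EuclideanSpace ℝ (Fin 2), ∀ a b, σ a → ¬ σ b →
      α * p b 0 + β * p b 1 ≤ α * z 0 + β * z 1 ∧ α * z 0 + β * z 1 ≤ α * p a 0 + β * p a 1 := by
    by_cases hc : (univ.filter σ).Nonempty
    · obtain ⟨a0, a1, a2⟩ := exists_min_image _ (fun a => α * p a 0 + β * p a 1) hc
      exact ⟨p a0, fun a b ha hb => ⟨h a0 b (mem_filter.1 a1).2 hb,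
        a2 a (mem_filter.2 ⟨mem_univ _, ha⟩)⟩⟩
    · exact ⟨0, fun a b ha _ => absurd ⟨a, mem_filter.2 ⟨mem_univ _, ha⟩⟩ hc⟩
  have hp : 0 < α ^ 2 + β ^ 2 := by
    rcases h0 with h0 | h0 <;> positivity
  have hv : (!₂[-β, α] : EuclideanSpace ℝ (Fin 2)) ≠ 0 := fun e => by
    have e0 := congrArg (fun w : EuclideanSpace ℝ (Fin 2) => w 0) e
    have e1 := congrArg (fun w : EuclideanSpace ℝ (Fin 2) => w 1) e
    simp at e0 e1
    tauto
  refine ⟨AffineSubspace.mk' z (Submodule.span ℝ {!₂[-β, α]}), ?_, fun a b ha hb => ?_⟩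
  · rw [AffineSubspace.direction_mk']
    exact finrank_span_singleton hv
  · obtain ⟨h1, h2⟩ := hz a b ha hb
    obtain ⟨l, l0, l1, l2⟩ : ∃ l : ℝ, 0 ≤ l ∧ l ≤ 1 ∧
        l * (α * p a 0 + β * p a 1) + (1 - l) * (α * p b 0 + β * p b 1) = α * z 0 + β * z 1 := by
      rcases (h1.trans h2).eq_or_lt with he | hl
      · exact ⟨0, le_rfl, zero_le_one, by linarith⟩
      · have hp := sub_pos.2 hl
        refine ⟨(α * z 0 + β * z 1 - (α * p b 0 + β * p b 1)) /
          (α * p a 0 + β * p a 1 - (α * p b 0 + β * p b 1)), div_nonneg (by linarith) hp.le,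
          (div_le_one hp).2 (by linarith), ?_⟩
        field_simp
        ring
    refine ⟨l • p a + (1 - l) • p b, ?_, l, 1 - l, l0, sub_nonneg.2 l1, by ring, rfl⟩
    rw [SetLike.mem_coe, AffineSubspace.mem_mk', Submodule.mem_span_singleton]
    refine ⟨(-β * (l * p a 0 + (1 - l) * p b 0 - z 0) + α * (l * p a 1 + (1 - l) * p b 1 - z 1)) /
      (α ^ 2 + β ^ 2), ?_⟩
    ext i
    fin_cases i
    · simp
      field_simp
      linear_combination (-α) * l2
    · simp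
      field_simp
      linear_combination (-β) * l2

open Classical in
theorem sep_all {V : Type} [Fintype V] (σ : V → Prop) {n : ℕ} (hn : Fintype.card V = 2 * n)
    (h : (univ.filter σ).card = n) :
    2 * n ^ 2 ≤ (univ.filter fun e : V × V => ¬ (σ e.1 ↔ σ e.2)).card := by
  have h1 := card_filter_add_card_filter_not (s := univ) σ
  rw [card_univ] at h1
  have h2 : (univ.filter fun a => ¬ σ a).card = n := by omega
  have h3 : Disjoint (univ.filter σ ×ˢ univ.filter fun a => ¬ σ a)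
      ((univ.filter fun a => ¬ σ a) ×ˢ univ.filter σ) := by
    rw [disjoint_left]
    intro e a b
    simp only [mem_product, mem_filter] at a b
    exact b.1.2 a.1.2
  have h4 := card_union_of_disjoint h3
  rw [card_product, card_product, h, h2] at h4
  refine le_trans (le_of_eq (by rw [h4]; ring)) (card_le_card fun e he => ?_)
  simp only [mem_union, mem_product, mem_filter, mem_univ, true_and] at he ⊢
  tauto

theorem dense (n : ℕ) (p : Fin n → EuclideanSpace ℝ (Fin 2)) (G : SimpleGraph (Fin n))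
    (hm : n ^ 2 ≤ 4 * G.edgeSet.ncard) :
    ∃ L : AffineSubspace ℝ (EuclideanSpace ℝ (Fin 2)),
      Module.finrank ℝ L.direction = 1 ∧
      ((G.edgeSet.ncard : ℝ) ^ 2 / (n : ℝ) ^ 2 ≤
        (({q : Fin n × Fin n | q.1 < q.2 ∧ G.Adj q.1 q.2 ∧
            ((L : Set (EuclideanSpace ℝ (Fin 2))) ∩
              segment ℝ (p q.1) (p q.2)).Nonempty}).ncard : ℝ)) := by
  classical
  rcases Nat.eq_zero_or_pos n with rfl | hn
  · obtain ⟨L, h, -⟩ := exists_line p (fun _ => True) (α := 1) (β := 0) (Or.inl one_ne_zero)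
      (fun _ _ _ h => absurd trivial h)
    exact ⟨L, h, by simp⟩
  set m := G.edgeSet.ncard with hmdef
  obtain ⟨s, hs⟩ : ∃ s, s = 6 * n ^ 3 := ⟨_, rfl⟩
  have hs0 : 0 < s := by rw [hs]; positivity
  have hs' : (s : ℝ) = 6 * (n : ℝ) ^ 3 := by exact_mod_cast hs
  have hcard : Fintype.card (Fin n × Fin s) = 2 * (3 * n ^ 4) := by
    rw [Fintype.card_prod, Fintype.card_fin, Fintype.card_fin, hs]; ring
  obtain ⟨M, σ, h0, h1, h2, h3, h4, h5⟩ := rot (V := Fin n × Fin s) (fun a => p a.1 0)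
    (fun a => p a.1 1) hcard
  have : NeZero M := ⟨h0.ne'⟩
  have : Nonempty (Fin n × Fin s) := ⟨(⟨0, hn⟩, ⟨0, hs0⟩)⟩
  have hn' : (1 : ℝ) ≤ n := by exact_mod_cast hn
  have hE : (univ.filter fun e : (Fin n × Fin s) × Fin n × Fin s => G.Adj e.1.1 e.2.1).card =
      2 * m * (s * s) := by
    have e1 : m = G.edgeFinset.card := by
      rw [hmdef, ← SimpleGraph.coe_edgeFinset, Set.ncard_coe_finset]
    rw [e1, G.two_mul_card_edgeFinset]
    have e2 : s * s = (univ : Finset (Fin s × Fin s)).card := by simp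
    rw [e2, ← card_product]
    refine card_bij' (fun e _ => ((e.1.1, e.2.1), (e.1.2, e.2.2)))
      (fun e _ => ((e.1.1, e.2.1), (e.1.2, e.2.2))) ?_ ?_ ?_ ?_ <;> simp
  set H := univ.filter fun e : (Fin n × Fin s) × Fin n × Fin s => ¬ G.Adj e.1.1 e.2.1 with hH
  have hH1 : 2 * m * (s * s) + H.card = (n * s) ^ 2 := by
    rw [← hE, hH, card_filter_add_card_filter_not, card_univ]
    simp [sq]
  have hH2 : (H.card : ℝ) = 36 * (n : ℝ) ^ 8 - 72 * m * (n : ℝ) ^ 6 := by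
    have : ((2 * m * (s * s) + H.card : ℕ) : ℝ) = ((n * s) ^ 2 : ℕ) := by rw [hH1]
    push_cast at this
    rw [hs'] at this
    linarith
  have hm' : (n : ℝ) ^ 2 ≤ 4 * m := by exact_mod_cast hm
  obtain ⟨x, hx⟩ : ∃ x : ℝ, m = x * (n : ℝ) ^ 2 := ⟨m / (n : ℝ) ^ 2, by field_simp⟩
  have hn2 : (0 : ℝ) < (n : ℝ) ^ 2 := by positivity
  have hn8 : (0 : ℝ) < (n : ℝ) ^ 8 := by positivity
  have hx1 : 1 / 4 ≤ x := by
    rw [hx] at hm'
    exact le_of_mul_le_mul_right (by linarith) hn2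
  have hH3 : (H.card : ℝ) = 36 * (n : ℝ) ^ 8 * (1 - 2 * x) := by rw [hH2, hx]; ring
  have hx2 : 0 ≤ 1 - 2 * x := by
    have : (0 : ℝ) ≤ H.card := Nat.cast_nonneg _
    rw [hH3] at this
    exact nonneg_of_mul_nonneg_right this (by positivity)
  obtain ⟨ε, hε⟩ : ∃ ε : ℝ, ε * (n : ℝ) ^ 4 = 1 / 3 := ⟨1 / (3 * (n : ℝ) ^ 4), by field_simp⟩
  have hn4 : (1 : ℝ) ≤ (n : ℝ) ^ 4 := one_le_pow₀ hn'
  have hε0 : 0 < ε := by
    by_contra hc
    nlinarith [mul_nonneg (neg_nonneg.2 (not_lt.1 hc)) (zero_le_one.trans hn4)]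
  have hε1 : ε ≤ 1 / 3 := by nlinarith
  obtain ⟨j, hj⟩ := core σ h1 h3 h4 H (y := 1 - 2 * x) (η := ε) (ε := ε) hε0 hx2 (by linarith)
    (by linarith) (by rw [hcard]; push_cast; linarith)
  obtain ⟨α, β, g1, g2⟩ := h5 j
  obtain ⟨L, L1, L2⟩ := exists_line (fun a : Fin n × Fin s => p a.1) (fun a => σ a j) g1 g2
  refine ⟨L, L1, ?_⟩
  set Q := univ.filter fun q : Fin n × Fin n => q.1 < q.2 ∧ G.Adj q.1 q.2 ∧
    ((L : Set (EuclideanSpace ℝ (Fin 2))) ∩ segment ℝ (p q.1) (p q.2)).Nonempty with hQ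
  have hQ1 : {q : Fin n × Fin n | q.1 < q.2 ∧ G.Adj q.1 q.2 ∧
      ((L : Set (EuclideanSpace ℝ (Fin 2))) ∩ segment ℝ (p q.1) (p q.2)).Nonempty} = Q := by
    ext q; simp [hQ]
  rw [hQ1, Set.ncard_coe_finset]
  have c1 := sep_all (fun a => σ a j) hcard (h2 j)
  have c2 := card_filter_add_card_filter_not (s := H) (fun e => σ e.1 j ↔ σ e.2 j)
  have c3 : (univ.filter fun e : (Fin n × Fin s) × Fin n × Fin s => ¬ (σ e.1 j ↔ σ e.2 j)).card ≤
      (H.filter fun e => ¬ (σ e.1 j ↔ σ e.2 j)).card + 2 * Q.card * (s * s) := by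
    have d1 : (univ.filter fun e : (Fin n × Fin s) × Fin n × Fin s =>
        G.Adj e.1.1 e.2.1 ∧ ¬ (σ e.1 j ↔ σ e.2 j)).card ≤
        ((Q ∪ Q.image Prod.swap) ×ˢ (univ : Finset (Fin s × Fin s))).card := by
      refine card_le_card_of_injOn (fun e => ((e.1.1, e.2.1), (e.1.2, e.2.2))) (fun e he => ?_)
        (fun e _ e' _ h => ?_)
      · obtain ⟨e1, e2⟩ := (mem_filter.1 he).2
        have e3 : ((L : Set (EuclideanSpace ℝ (Fin 2))) ∩
            segment ℝ (p e.1.1) (p e.2.1)).Nonempty := by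
          by_cases e4 : σ e.1 j
          · exact L2 _ _ e4 (by tauto)
          · rw [segment_symm]
            exact L2 _ _ (by tauto) e4
        refine mem_coe.2 (mem_product.2 ⟨mem_union.2 ?_, mem_univ _⟩)
        rcases lt_or_gt_of_ne e1.ne with e4 | e4
        · exact Or.inl (mem_filter.2 ⟨mem_univ _, e4, e1, e3⟩)
        · refine Or.inr (mem_image.2 ⟨(e.2.1, e.1.1), mem_filter.2 ⟨mem_univ _, e4, e1.symm, ?_⟩,
            rfl⟩)
          rwa [segment_symm]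
      · simp only [Prod.mk.injEq] at h
        exact Prod.ext (Prod.ext h.1.1 h.2.1) (Prod.ext h.1.2 h.2.2)
    have d2 : (Q ∪ Q.image Prod.swap).card ≤ 2 * Q.card := by
      have := card_union_le Q (Q.image Prod.swap)
      have := card_image_le (s := Q) (f := Prod.swap)
      omega
    rw [card_product, card_univ, Fintype.card_prod, Fintype.card_fin] at d1
    refine le_trans (card_le_card (fun e he => ?_)) ((card_union_le _ _).trans
      (add_le_add le_rfl (d1.trans (Nat.mul_le_mul_right _ d2))))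
    simp only [hH, mem_union, mem_filter, mem_univ, true_and] at he ⊢
    tauto
  have c4 : 2 * (3 * n ^ 4) ^ 2 + (H.filter fun e => σ e.1 j ↔ σ e.2 j).card ≤
      H.card + 2 * Q.card * (s * s) := by omega
  have c5 : ((2 * (3 * n ^ 4) ^ 2 + (H.filter fun e => σ e.1 j ↔ σ e.2 j).card : ℕ) : ℝ) ≤
      (H.card + 2 * Q.card * (s * s) : ℕ) := by exact_mod_cast c4
  rw [hcard] at hj
  push_cast at c5 hj
  rw [hs'] at c5
  rw [hH3] at c5 hj
  have c6 : (m : ℝ) ^ 2 < Q.card * (n : ℝ) ^ 2 + 1 := by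
    have e1 : 72 * (n : ℝ) ^ 8 * (x ^ 2 - 2 * ε * (1 - 2 * x) - ε ^ 2) ≤
        72 * (n : ℝ) ^ 6 * Q.card := by linarith
    have e2 : (n : ℝ) ^ 2 * (x ^ 2 - 2 * ε * (1 - 2 * x) - ε ^ 2) ≤ Q.card :=
      le_of_mul_le_mul_left (a := 72 * (n : ℝ) ^ 6) (by linarith) (by positivity)
    have e3 := mul_le_mul_of_nonneg_right e2 hn2.le
    have e4 : ε * (n : ℝ) ^ 4 * (2 * (1 - 2 * x) + ε) < 1 := by rw [hε]; linarith
    rw [hx]
    linarith
  have c7 : m ^ 2 ≤ Q.card * n ^ 2 := by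
    have : m ^ 2 < Q.card * n ^ 2 + 1 := by exact_mod_cast c6
    omega
  rw [div_le_iff₀ hn2]
  exact_mod_cast c7

end Pool.Agent.P.MP_3c7b76_co
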