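import Pool.Agent.P.MP_3c7b76_co.Circ

/-! The window count. -/

namespace Pool.Agent.P.MP_3c7b76_co

open Finset

theorem two_period {x : ℤ → ℝ} {M : ℕ} (h2 : ∀ j, x (j + M) = x j + 1) (j : ℤ) :
    x (j + ((2 * M : ℕ) : ℤ)) = x j + 2 := by
  have : j + ((2 * M : ℕ) : ℤ) = j + M + M := by push_cast; ring
  rw [this, h2, h2]; ring

theorem kernel_le {x : ℤ → ℝ} {P : ℕ} {ε y : ℝ} (h0 : ∀ j, x j ≤ x (j + 1))
    (h1 : ∀ j, x (j + 1) ≤ x j + ε) (h2 : ∀ j, x (j + P) = x j + 2) (hy : y + ε ≤ 2) (u v : ℝ) :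
    max (y - cd (u - v + 1)) 0 ≤ ∑ l ∈ range P, (x (l + 1) - x l) *
      (chi (x l) (x l + (y + ε)) u * chi (x l + 1) (x l + (y + ε) + 1) v) := by
  refine max_le ?_ (sum_nonneg fun l _ => mul_nonneg (sub_nonneg.2 (h0 l))
    (mul_nonneg (chi_nonneg _ _ _) (chi_nonneg _ _ _)))
  obtain ⟨k0, hk0⟩ := cd_eq (u - v + 1)
  have h3 := arc_lower h0 h1 h2 (a := max u (v - 1 - 2 * k0) - (y + ε))
    (b := min u (v - 1 - 2 * k0)) (by linarith [min_le_max (a := u) (b := v - 1 - 2 * k0)])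
  have h4 : max u (v - 1 - 2 * k0) - min u (v - 1 - 2 * k0) = cd (u - v + 1) := by
    rw [max_sub_min_eq_abs, hk0, abs_sub_comm]; congr 1; ring
  refine le_trans (by linarith) (h3.trans (sum_le_sum fun l _ => ?_))
  refine mul_le_mul_of_nonneg_left ?_ (sub_nonneg.2 (h0 l))
  by_cases hc : ∃ k : ℤ, max u (v - 1 - 2 * k0) - (y + ε) ≤ x l + 2 * k ∧
      x l + 2 * k ≤ min u (v - 1 - 2 * k0)
  · obtain ⟨k, k1, k2⟩ := hc
    have a1 := le_max_left u (v - 1 - 2 * k0)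
    have a2 := le_max_right u (v - 1 - 2 * k0)
    have a3 := min_le_left u (v - 1 - 2 * k0)
    have a4 := min_le_right u (v - 1 - 2 * k0)
    rw [chi_eq_one k k1 k2, chi_eq_one (z := u) (-k) (by push_cast; linarith)
      (by push_cast; linarith), chi_eq_one (z := v) (-k - k0) (by push_cast; linarith)
      (by push_cast; linarith)]
    norm_num
  · conv_lhs => unfold chi
    rw [if_neg hc]
    exact mul_nonneg (chi_nonneg _ _ _) (chi_nonneg _ _ _)

theorem phi_le {x : ℤ → ℝ} {M : ℕ} {ε N y : ℝ} (h0 : ∀ j, x j ≤ x (j + 1))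
    (h1 : ∀ j, x (j + 1) ≤ x j + ε) (h2 : ∀ j, x (j + M) = x j + 1) {μ : ℕ → ℝ}
    (hμ0 : ∀ i, 0 ≤ μ i) (hμ : ∀ i < M, μ i + μ (M + i) = N * (x (i + 1) - x i))
    (hy0 : 0 ≤ y) (hy : y + ε ≤ 2) (hN : 0 ≤ N) :
    ∑ i ∈ range (2 * M), ∑ j ∈ range (2 * M), μ i * μ j * max (y - cd (x i - x j + 1)) 0
      ≤ N ^ 2 * (y + 2 * ε) ^ 2 / 2 := by
  have hε : 0 ≤ ε := by linarith [h0 0, h1 0]
  have h3 := two_period h2
  have hA : ∀ t : ℝ, ∑ i ∈ range (2 * M), μ i * chi t (t + (y + ε)) (x i) +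
      ∑ i ∈ range (2 * M), μ i * chi (t + 1) (t + (y + ε) + 1) (x i) ≤ N * (y + 2 * ε) := by
    intro t
    have a1 := arc_upper h0 h1 h3 (a := t) (b := t + (y + ε)) (by linarith)
    have a2 : N * ∑ i ∈ range (2 * M), (x (i + 1) - x i) * chi t (t + (y + ε)) (x i)
        ≤ N * (y + 2 * ε) := mul_le_mul_of_nonneg_left (by linarith) hN
    refine le_trans (le_of_eq ?_) a2
    simp only [two_mul, sum_range_add, mul_add, mul_sum, ← sum_add_distrib]
    refine sum_congr rfl fun i hi => ?_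
    have b1 : x ((M + i : ℕ) : ℤ) = x i + 1 := by rw [← h2]; congr 1; push_cast; ring
    have b2 : x (((M + i : ℕ) : ℤ) + 1) = x (i + 1) + 1 := by
      rw [← h2]; congr 1; push_cast; ring
    have b3 : chi (t + 1) (t + (y + ε) + 1) (x i) = chi t (t + (y + ε)) (x i + 1) := by
      rw [← chi_shift t _ _ 1, ← chi_two]; congr 1; ring
    rw [b1, b2, chi_shift, b3]
    have b4 := hμ i (mem_range.1 hi)
    linear_combination (chi t (t + (y + ε)) (x i) + chi t (t + (y + ε)) (x i + 1)) * b4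
  calc _ ≤ ∑ i ∈ range (2 * M), ∑ j ∈ range (2 * M), μ i * μ j *
        ∑ l ∈ range (2 * M), (x (l + 1) - x l) *
          (chi (x l) (x l + (y + ε)) (x i) * chi (x l + 1) (x l + (y + ε) + 1) (x j)) :=
        sum_le_sum fun i _ => sum_le_sum fun j _ => mul_le_mul_of_nonneg_left
          (kernel_le h0 h1 h3 hy _ _) (mul_nonneg (hμ0 i) (hμ0 j))
    _ = ∑ l ∈ range (2 * M), (x (l + 1) - x l) *
        ((∑ i ∈ range (2 * M), μ i * chi (x l) (x l + (y + ε)) (x i)) *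
          ∑ j ∈ range (2 * M), μ j * chi (x l + 1) (x l + (y + ε) + 1) (x j)) := by
        simp_rw [sum_mul_sum, mul_sum]
        conv_rhs => rw [sum_comm]
        refine sum_congr rfl fun i _ => ?_
        conv_rhs => rw [sum_comm]
        exact sum_congr rfl fun j _ => sum_congr rfl fun l _ => by ring
    _ ≤ ∑ l ∈ range (2 * M), (x (l + 1) - x l) * ((N * (y + 2 * ε)) ^ 2 / 4) := by
        refine sum_le_sum fun l _ => mul_le_mul_of_nonneg_left ?_ (sub_nonneg.2 (h0 l))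
        have a1 := hA (x l)
        have a2 : 0 ≤ ∑ i ∈ range (2 * M), μ i * chi (x l) (x l + (y + ε)) (x i) :=
          sum_nonneg fun i _ => mul_nonneg (hμ0 i) (chi_nonneg _ _ _)
        have a3 : 0 ≤ ∑ i ∈ range (2 * M), μ i * chi (x l + 1) (x l + (y + ε) + 1) (x i) :=
          sum_nonneg fun i _ => mul_nonneg (hμ0 i) (chi_nonneg _ _ _)
        set A := ∑ i ∈ range (2 * M), μ i * chi (x l) (x l + (y + ε)) (x i)
        set B := ∑ i ∈ range (2 * M), μ i * chi (x l + 1) (x l + (y + ε) + 1) (x i)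
        nlinarith [sq_nonneg (A - B), mul_self_le_mul_self (add_nonneg a2 a3) a1]
    _ = N ^ 2 * (y + 2 * ε) ^ 2 / 2 := by
        have h4 := sum_step (x := x) 0 (2 * M)
        rw [h3] at h4
        simp only [zero_add] at h4
        rw [← sum_mul, h4]; ring

end Pool.Agent.P.MP_3c7b76_co
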