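import Pool.Agent.P.MP_3c7b76_co.Phi

/-! Projection of an antiperiodic pattern to a distribution on its wells. -/

namespace Pool.Agent.P.MP_3c7b76_co

open Finset

/-- A pattern `s` with positions `x` and height function `g`. -/
structure Pat (M : ℕ) (s : ℤ → Prop) (x g : ℤ → ℝ) : Prop where
  mono : ∀ j, x j ≤ x (j + 1)
  per : ∀ j, x (j + M) = x j + 1
  anti : ∀ j, s (j + M) ↔ ¬ s j
  up : ∀ j, ¬ s j → g (j + 1) = g j + (x (j + 1) - x j)
  dn : ∀ j, s j → g (j + 1) = g j - (x (j + 1) - x j)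
  neg : ∀ j, g (j + M) = - g j

/-- A well of the pattern. -/
def Well (s : ℤ → Prop) (j : ℤ) : Prop := ¬ s (j - 1) ∧ s j

/-- A maximal run of positive height. -/
def Run (g : ℤ → ℝ) (a b : ℤ) : Prop :=
  a ≤ b ∧ g (a - 1) ≤ 0 ∧ g (b + 1) ≤ 0 ∧ ∀ i, a ≤ i → i ≤ b → 0 < g i

variable {M : ℕ} {s : ℤ → Prop} {x g : ℤ → ℝ}

theorem Pat.pos (h : Pat M s x g) : 0 < M := by
  rcases Nat.eq_zero_or_pos M with h0 | h0
  · have := h.anti 0
    rw [h0] at this
    simp at this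
  · exact h0

theorem Pat.abs_step (h : Pat M s x g) (j : ℤ) : |g (j + 1) - g j| = x (j + 1) - x j := by
  have h0 := sub_nonneg.2 (h.mono j)
  by_cases hs : s j
  · rw [h.dn j hs, sub_sub_cancel_left, abs_neg, abs_of_nonneg h0]
  · rw [h.up j hs, add_sub_cancel_left, abs_of_nonneg h0]

theorem Pat.lip (h : Pat M s x g) {j k : ℤ} (hjk : j ≤ k) : |g k - g j| ≤ x k - x j := by
  induction k, hjk using Int.leInduction with
  | base => simp
  | succ k _ ih =>
    have h1 := h.abs_step k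
    have h2 := abs_sub_le (g (k + 1)) (g k) (g j)
    linarith

theorem Pat.up_many (h : Pat M s x g) {q w : ℤ} (hqw : q ≤ w) :
    (∀ i, q ≤ i → i < w → ¬ s i) → g w = g q + (x w - x q) := by
  induction w, hqw using Int.leInduction with
  | base => simp
  | succ k hk ih =>
    intro h1
    rw [h.up k (h1 k hk (by omega)), ih fun i a1 a2 => h1 i a1 (by omega)]
    ring

theorem Pat.dn_many (h : Pat M s x g) {q w : ℤ} (hqw : q ≤ w) :
    (∀ i, q ≤ i → i < w → s i) → g w = g q - (x w - x q) := by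
  induction w, hqw using Int.leInduction with
  | base => simp
  | succ k hk ih =>
    intro h1
    rw [h.dn k (h1 k hk (by omega)), ih fun i a1 a2 => h1 i a1 (by omega)]
    ring

theorem Pat.fwd (h : Pat M s x g) {q : ℤ} (hq : ¬ s (q - 1) ∨ ¬ s q) :
    ∃ w, q ≤ w ∧ Well s w ∧ g w = g q + (x w - x q) ∧ ∀ i, q ≤ i → i < w → ¬ s i := by
  obtain ⟨w, ⟨h1, h2⟩, h3⟩ : ∃ w, (q ≤ w ∧ s w) ∧ ∀ z, (q ≤ z ∧ s z) → w ≤ z := by
    refine Int.exists_least_of_bdd ⟨q, fun z hz => hz.1⟩ ?_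
    by_cases hs : s q
    · exact ⟨q, le_rfl, hs⟩
    · exact ⟨q + M, by omega, (h.anti q).2 hs⟩
  have h4 : ∀ i, q ≤ i → i < w → ¬ s i := fun i a1 a2 a3 => by
    have := h3 i ⟨a1, a3⟩
    omega
  refine ⟨w, h1, ⟨?_, h2⟩, h.up_many h1 h4, h4⟩
  rcases h1.eq_or_lt with rfl | h5
  · exact hq.resolve_right (not_not.2 h2)
  · exact h4 _ (by omega) (by omega)

theorem Pat.bwd (h : Pat M s x g) {q : ℤ} (hq : s q) :
    ∃ w, w ≤ q ∧ Well s w ∧ g w = g q + (x q - x w) ∧ ∀ i, w ≤ i → i ≤ q → s i := by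
  have hM := h.pos
  obtain ⟨w, ⟨h1, h2⟩, h3⟩ : ∃ w, (w ≤ q ∧ ¬ s (w - 1)) ∧
      ∀ z, (z ≤ q ∧ ¬ s (z - 1)) → z ≤ w := by
    refine Int.exists_greatest_of_bdd ⟨q, fun z hz => hz.1⟩ ⟨q - M + 1, by omega, ?_⟩
    rw [add_sub_cancel_right, ← h.anti, sub_add_cancel]
    exact hq
  have h4 : ∀ i, w ≤ i → i ≤ q → s i := fun i a1 a2 => by
    rcases a2.eq_or_lt with rfl | a3
    · exact hq
    · by_contra a4
      have := h3 (i + 1) ⟨by omega, by rwa [add_sub_cancel_right]⟩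
      omega
  refine ⟨w, h1, ⟨h2, h4 w le_rfl h1⟩, ?_, h4⟩
  rw [h.dn_many h1 fun i a1 a2 => h4 i a1 a2.le]
  ring

theorem Pat.exists_well (h : Pat M s x g) : ∃ w, Well s w := by
  by_cases hs : s 0
  · obtain ⟨w, -, h1, -⟩ := h.bwd hs
    exact ⟨w, h1⟩
  · obtain ⟨w, -, h1, -⟩ := h.fwd (Or.inr hs)
    exact ⟨w, h1⟩

theorem Pat.run_data (h : Pat M s x g) {a b : ℤ} (hr : Run g a b) :
    ∃ (u v : ℤ) (l : ℝ), Well s u ∧ Well s v ∧ 0 ≤ l ∧ l ≤ 1 ∧ ∀ q, Well s q → a ≤ q → q ≤ b →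
      1 / 2 - |(x a - g a + x b + g b) / 2 - x q| ≤
        l * tent (x u - x q) + (1 - l) * tent (x v - x q) := by
  obtain ⟨hab, ha, hb, hpos⟩ := hr
  have hm := mono_of_step h.mono
  have sa : ¬ s (a - 1) := fun hs => by
    have h1 := h.dn _ hs
    rw [sub_add_cancel] at h1
    have h2 := hm (show a - 1 ≤ a by omega)
    linarith [hpos a le_rfl hab]
  have sb : s b := by
    by_contra hs
    have h1 := h.up _ hs
    linarith [hpos b hab le_rfl, h.mono b]
  set c := (x a - g a + x b + g b) / 2 with hc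
  obtain ⟨u, ⟨u1, u2, u3, u4⟩, u5⟩ : ∃ u, (u ≤ b ∧ a ≤ u ∧ Well s u ∧ x u ≤ c) ∧
      ∀ z, (z ≤ b ∧ a ≤ z ∧ Well s z ∧ x z ≤ c) → z ≤ u := by
    refine Int.exists_greatest_of_bdd ⟨b, fun z hz => hz.1⟩ ?_
    obtain ⟨w, w1, w2, w3, w4⟩ := h.fwd (Or.inl sa)
    have w5 : w ≤ b := by
      by_contra hc
      exact w4 b hab (not_le.1 hc) sb
    have w6 := abs_le.1 (h.lip w5)
    exact ⟨w, w5, w1, w2, by linarith [w6.1]⟩
  obtain ⟨v, ⟨v1, v2, v3, v4⟩, v5⟩ : ∃ v, (a ≤ v ∧ v ≤ b ∧ Well s v ∧ c ≤ x v) ∧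
      ∀ z, (a ≤ z ∧ z ≤ b ∧ Well s z ∧ c ≤ x z) → v ≤ z := by
    refine Int.exists_least_of_bdd ⟨a, fun z hz => hz.1⟩ ?_
    obtain ⟨w, w1, w2, w3, w4⟩ := h.bwd sb
    have w5 : a ≤ w := by
      by_contra hc
      exact sa (w4 _ (by omega) (by omega))
    have w6 := abs_le.1 (h.lip w5)
    exact ⟨w, w5, w1, w2, by linarith [w6.2]⟩
  obtain ⟨l, l0, l1, l2⟩ : ∃ l : ℝ, 0 ≤ l ∧ l ≤ 1 ∧ l * x u + (1 - l) * x v = c := by
    rcases (u4.trans v4).eq_or_lt with he | hl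
    · exact ⟨0, le_rfl, zero_le_one, by linarith⟩
    · have hp : 0 < x v - x u := sub_pos.2 hl
      refine ⟨(x v - c) / (x v - x u), div_nonneg (by linarith) hp.le,
        (div_le_one hp).2 (by linarith), ?_⟩
      field_simp
      ring
  refine ⟨u, v, l, u3, v3, l0, l1, fun q q1 q2 q3 => ?_⟩
  have t1 := mul_le_mul_of_nonneg_left (tent_ge (x u - x q)) l0
  have t2 := mul_le_mul_of_nonneg_left (tent_ge (x v - x q)) (sub_nonneg.2 l1)
  rcases le_total (x q) c with hq | hq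
  · have e1 := hm (u5 q ⟨q3, q2, q1, hq⟩)
    rw [abs_of_nonneg (by linarith)] at t1 t2 ⊢
    linarith
  · have e1 := hm (v5 q ⟨q2, q3, q1, hq⟩)
    rw [abs_of_nonpos (by linarith)] at t1 t2 ⊢
    linarith

theorem run_unique {a b a' b' j : ℤ} (h : Run g a b) (h' : Run g a' b') (h1 : a - 1 ≤ j)
    (h2 : j ≤ b) (h3 : a' - 1 ≤ j) (h4 : j ≤ b') : a = a' ∧ b = b' := by
  obtain ⟨r1, r2, r3, r4⟩ := h
  obtain ⟨s1, s2, s3, s4⟩ := h'
  constructor
  · rcases lt_trichotomy a a' with hl | hl | hl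
    · linarith [r4 (a' - 1) (by omega) (by omega)]
    · exact hl
    · linarith [s4 (a - 1) (by omega) (by omega)]
  · rcases lt_trichotomy b b' with hl | hl | hl
    · linarith [s4 (b + 1) (by omega) (by omega)]
    · exact hl
    · linarith [r4 (b' + 1) (by omega) (by omega)]

theorem Pat.step_data (h : Pat M s x g) (j : ℤ) :
    ∃ (u v : ℤ) (l : ℝ), Well s u ∧ Well s v ∧ 0 ≤ l ∧ l ≤ 1 ∧ ∀ a b, Run g a b → a - 1 ≤ j →
      j ≤ b → ∀ q, Well s q → a ≤ q → q ≤ b → 1 / 2 - |(x a - g a + x b + g b) / 2 - x q| ≤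
        l * tent (x u - x q) + (1 - l) * tent (x v - x q) := by
  by_cases hc : ∃ a b, Run g a b ∧ a - 1 ≤ j ∧ j ≤ b
  · obtain ⟨a, b, h1, h2, h3⟩ := hc
    obtain ⟨u, v, l, u1, v1, l0, l1, h4⟩ := h.run_data h1
    refine ⟨u, v, l, u1, v1, l0, l1, fun a' b' r1 r2 r3 => ?_⟩
    obtain ⟨rfl, rfl⟩ := run_unique h1 r1 h2 h3 r2 r3
    exact h4
  · obtain ⟨w, hw⟩ := h.exists_well
    exact ⟨w, w, 0, hw, hw, le_rfl, zero_le_one, fun a b r1 r2 r3 => absurd ⟨a, b, r1, r2, r3⟩ hc⟩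

theorem sum_Ico_int (F : ℤ → ℝ) (o : ℤ) (n : ℕ) :
    ∑ j ∈ Ico o (o + n), F j = ∑ i ∈ range n, F (o + i) := by
  rw [Int.Ico_eq_finset_map, sum_map]
  simp

/-- The positive part of a step. -/
noncomputable def pp (g : ℤ → ℝ) (j : ℤ) : ℝ := |max (g (j + 1)) 0 - max (g j) 0|

theorem Pat.pp_add (h : Pat M s x g) (j : ℤ) : pp g j + pp g (j + M) = x (j + 1) - x j := by
  rw [← h.abs_step]
  unfold pp
  have : j + M + 1 = j + 1 + M := by ring
  rw [this, h.neg, h.neg]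
  generalize g (j + 1) = a
  generalize g j = b
  rcases le_total a 0 with h1 | h1 <;> rcases le_total b 0 with h2 | h2
  · rw [max_eq_right h1, max_eq_right h2, max_eq_left (neg_nonneg.2 h1),
      max_eq_left (neg_nonneg.2 h2), sub_self, abs_zero, zero_add, ← abs_neg]
    congr 1; ring
  · rw [max_eq_right h1, max_eq_left h2, max_eq_left (neg_nonneg.2 h1),
      max_eq_right (neg_nonpos.2 h2), abs_of_nonpos (by linarith), abs_of_nonneg (by linarith),
      abs_of_nonpos (by linarith)]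
    ring
  · rw [max_eq_left h1, max_eq_right h2, max_eq_right (neg_nonpos.2 h1),
      max_eq_left (neg_nonneg.2 h2), abs_of_nonneg (by linarith), abs_of_nonpos (by linarith),
      abs_of_nonneg (by linarith)]
    ring
  · rw [max_eq_left h1, max_eq_left h2, max_eq_right (neg_nonpos.2 h1),
      max_eq_right (neg_nonpos.2 h2), sub_self, abs_zero, add_zero]

theorem Pat.pp_sum (h : Pat M s x g) (o : ℤ) :
    ∑ j ∈ Ico o (o + ((2 * M : ℕ) : ℤ)), pp g j = 1 := by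
  rw [sum_Ico_int, two_mul, sum_range_add, ← sum_add_distrib]
  have h1 := sum_step (x := x) o M
  rw [h.per, add_sub_cancel_left] at h1
  rw [← h1]
  refine sum_congr rfl fun i _ => ?_
  rw [← h.pp_add]
  congr 2
  push_cast; ring

theorem Pat.pp_run (h : Pat M s x g) {a b : ℤ} (hr : Run g a b) :
    ∑ j ∈ Ico (a - 1) (b + 1), pp g j = g a + (x b - x a) + g b := by
  obtain ⟨hab, ha, hb, hpos⟩ := hr
  obtain ⟨n, rfl⟩ : ∃ n : ℕ, b = a + n := ⟨(b - a).toNat, by omega⟩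
  have e : a + n + 1 = a - 1 + ((n + 1 + 1 : ℕ) : ℤ) := by push_cast; ring
  rw [e, sum_Ico_int, sum_range_succ, sum_range_succ', ← sum_step a n]
  have e1 : pp g (a - 1 + ((0 : ℕ) : ℤ)) = g a := by
    unfold pp
    simp only [Nat.cast_zero, add_zero, sub_add_cancel]
    rw [max_eq_right ha, max_eq_left (hpos a le_rfl hab).le, sub_zero,
      abs_of_pos (hpos a le_rfl hab)]
  have e2 : pp g (a - 1 + ((n + 1 : ℕ) : ℤ)) = g (a + n) := by
    have : a - 1 + ((n + 1 : ℕ) : ℤ) = a + n := by push_cast; ring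
    rw [this]
    unfold pp
    rw [max_eq_right hb, max_eq_left (hpos _ hab le_rfl).le, zero_sub, abs_neg,
      abs_of_pos (hpos _ hab le_rfl)]
  have e3 : ∑ i ∈ range n, pp g (a - 1 + ((i + 1 : ℕ) : ℤ)) =
      ∑ i ∈ range n, (x (a + i + 1) - x (a + i)) := by
    refine sum_congr rfl fun i hi => ?_
    have hi' := mem_range.1 hi
    have : a - 1 + ((i + 1 : ℕ) : ℤ) = a + i := by push_cast; ring
    rw [this, ← h.abs_step]
    unfold pp
    rw [max_eq_left (hpos _ (by omega) (by omega)).le, max_eq_left (hpos _ (by omega) (by omega)).le]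
  rw [e1, e2, e3]
  ring

theorem Pat.s_per (h : Pat M s x g) (j k : ℤ) : s (j + ((2 * M : ℕ) : ℤ) * k) ↔ s j := by
  have h1 : Function.Periodic s ((2 * M : ℕ) : ℤ) := fun j => by
    have : j + ((2 * M : ℕ) : ℤ) = j + M + M := by push_cast; ring
    rw [this]
    apply propext
    rw [h.anti, h.anti, not_not]
  have h2 := h1.int_mul k j
  rw [mul_comm] at h2
  exact iff_of_eq h2

theorem Pat.well_per (h : Pat M s x g) {j : ℤ} (hj : Well s j) (k : ℤ) :
    Well s (j + ((2 * M : ℕ) : ℤ) * k) := by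
  refine ⟨?_, (h.s_per j k).2 hj.2⟩
  rw [add_sub_right_comm, h.s_per]
  exact hj.1

theorem Pat.g_per (h : Pat M s x g) (j k : ℤ) : g (j + ((2 * M : ℕ) : ℤ) * k) = g j := by
  have h1 := iter_add (x := g) (P := ((2 * M : ℕ) : ℤ)) (c := 0) (fun j => by
    have : j + ((2 * M : ℕ) : ℤ) = j + M + M := by push_cast; ring
    rw [this, h.neg, h.neg]; ring) j k
  simpa using h1

theorem Pat.x_per (h : Pat M s x g) (j k : ℤ) : x (j + ((2 * M : ℕ) : ℤ) * k) = x j + 2 * k :=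
  iter_add (two_period h.per) j k

theorem Pat.proj (h : Pat M s x g) : ∃ W : ℕ → ℝ, (∀ i, 0 ≤ W i) ∧ ∑ i ∈ range (2 * M), W i = 1 ∧
    (∀ i : ℕ, ¬ Well s i → W i = 0) ∧ ∀ q, g q ≤ ∑ i ∈ range (2 * M), W i * tent (x i - x q) := by
  classical
  have hM := h.pos
  have hm := mono_of_step h.mono
  obtain ⟨o, ho⟩ : ∃ o, g o ≤ 0 := by
    rcases le_total (g 0) 0 with h0 | h0
    · exact ⟨0, h0⟩
    · exact ⟨0 + M, by rw [h.neg]; linarith⟩
  choose u v l hu hv l0 l1 hd using h.step_data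
  set P : ℤ := ((2 * M : ℕ) : ℤ) with hP
  have hP0 : 0 < P := by omega
  have hred : ∀ z : ℤ, (((z % P).toNat : ℕ) : ℤ) = z + P * (-(z / P)) ∧
      (z % P).toNat ∈ range (2 * M) := fun z => by
    have a1 := Int.emod_nonneg z hP0.ne'
    have a2 := Int.emod_lt_of_pos z hP0
    have a3 := Int.emod_add_mul_ediv z P
    refine ⟨by rw [Int.toNat_of_nonneg a1]; linarith, mem_range.2 (by omega)⟩
  set W : ℕ → ℝ := fun i => ∑ j ∈ Ico o (o + P), pp g j *
    (l j * (if (u j % P).toNat = i then 1 else 0) +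
      (1 - l j) * (if (v j % P).toNat = i then 1 else 0)) with hW
  have key : ∀ φ : ℕ → ℝ, ∑ i ∈ range (2 * M), W i * φ i = ∑ j ∈ Ico o (o + P), pp g j *
      (l j * φ (u j % P).toNat + (1 - l j) * φ (v j % P).toNat) := fun φ => by
    simp only [hW, sum_mul]
    rw [sum_comm]
    refine sum_congr rfl fun j _ => ?_
    have b1 := sum_ite_eq (range (2 * M)) (u j % P).toNat φ
    have b2 := sum_ite_eq (range (2 * M)) (v j % P).toNat φ
    rw [if_pos (hred _).2] at b1 b2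
    rw [← b1, ← b2, mul_sum, mul_sum, ← sum_add_distrib, mul_sum]
    refine sum_congr rfl fun i _ => ?_
    split_ifs <;> ring
  have hpp : ∀ j, 0 ≤ pp g j := fun j => abs_nonneg _
  have W0 : ∀ i, 0 ≤ W i := fun i => sum_nonneg fun j _ => mul_nonneg (hpp j)
    (add_nonneg (mul_nonneg (l0 j) (by split_ifs <;> norm_num))
      (mul_nonneg (sub_nonneg.2 (l1 j)) (by split_ifs <;> norm_num)))
  have W1 : ∑ i ∈ range (2 * M), W i = 1 := by
    have := key fun _ => 1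
    simp only [mul_one, add_sub_cancel] at this
    rw [this, h.pp_sum]
  have wells : ∀ q, Well s q → g q ≤ ∑ i ∈ range (2 * M), W i * tent (x i - x q) := by
    intro q0 hq0
    obtain ⟨k, k1, k2⟩ : ∃ k : ℤ, o ≤ q0 + P * k ∧ q0 + P * k < o + P := by
      have a1 := Int.emod_nonneg (q0 - o) hP0.ne'
      have a2 := Int.emod_lt_of_pos (q0 - o) hP0
      have a3 := Int.emod_add_mul_ediv (q0 - o) P
      exact ⟨-((q0 - o) / P), by linarith, by linarith⟩
    have hq := h.well_per hq0 k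
    have e1 : ∀ z : ℝ, tent (z - x q0) = tent (z - x (q0 + P * k)) := fun z => by
      rw [h.x_per, ← tent_add_int (z - (x q0 + 2 * k)) k]; congr 1; ring
    simp only [e1]
    rw [← h.g_per q0 k]
    generalize q0 + P * k = q at *
    rcases le_or_gt (g q) 0 with g0 | g0
    · exact g0.trans (sum_nonneg fun i _ => mul_nonneg (W0 i) (tent_nonneg _))
    obtain ⟨a, ⟨a1, a2⟩, a3⟩ : ∃ a, (a ≤ q ∧ g (a - 1) ≤ 0) ∧
        ∀ z, (z ≤ q ∧ g (z - 1) ≤ 0) → z ≤ a := by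
      refine Int.exists_greatest_of_bdd ⟨q, fun z hz => hz.1⟩ ⟨o + 1, ?_, by simpa using ho⟩
      rcases k1.eq_or_lt with rfl | k3
      · linarith
      · omega
    have ho' : g (o + P) ≤ 0 := by
      have := h.g_per o 1
      rw [mul_one] at this
      rwa [this]
    obtain ⟨b, ⟨b1, b2⟩, b3⟩ : ∃ b, (q ≤ b ∧ g (b + 1) ≤ 0) ∧
        ∀ z, (q ≤ z ∧ g (z + 1) ≤ 0) → b ≤ z :=
      Int.exists_least_of_bdd ⟨q, fun z hz => hz.1⟩ ⟨o + P - 1, by omega, by simpa using ho'⟩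
    have a4 : o + 1 ≤ a := a3 _ ⟨by
      rcases k1.eq_or_lt with rfl | k3
      · linarith
      · omega, by simpa using ho⟩
    have b4 : b ≤ o + P - 1 := b3 _ ⟨by omega, by simpa using ho'⟩
    have hr : Run g a b := ⟨a1.trans b1, a2, b2, fun i i1 i2 => by
      by_contra i3
      have i4 := not_lt.1 i3
      rcases lt_trichotomy i q with i5 | rfl | i5
      · have := a3 (i + 1) ⟨by omega, by simpa using i4⟩
        omega
      · linarith
      · have := b3 (i - 1) ⟨by omega, by simpa using i4⟩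
        omega⟩
    have hsub : Ico (a - 1) (b + 1) ⊆ Ico o (o + P) := Ico_subset_Ico (by omega) (by omega)
    have c1 := h.pp_run hr
    have c2 : ∑ j ∈ Ico (a - 1) (b + 1), pp g j ≤ 1 := by
      rw [← h.pp_sum o]
      exact sum_le_sum_of_subset_of_nonneg hsub fun j _ _ => hpp j
    have e2 : ∀ z : ℤ, tent (x (((z % P).toNat : ℕ) : ℤ) - x q) = tent (x z - x q) := fun z => by
      rw [(hred z).1, h.x_per, ← tent_add_int (x z - x q) (-(z / P))]; congr 1; ring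
    rw [key]
    simp only [e2]
    refine le_trans ?_ (sum_le_sum_of_subset_of_nonneg hsub fun j _ _ => mul_nonneg (hpp j)
      (add_nonneg (mul_nonneg (l0 j) (tent_nonneg _))
        (mul_nonneg (sub_nonneg.2 (l1 j)) (tent_nonneg _))))
    refine le_trans ?_ (sum_le_sum fun j hj => mul_le_mul_of_nonneg_left
      (hd j a b hr (mem_Ico.1 hj).1 (by have := (mem_Ico.1 hj).2; omega) q hq a1 b1) (hpp j))
    rw [← sum_mul]
    rw [c1] at c2 ⊢
    have d1 := (abs_le.1 (h.lip a1)).2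
    have d2 := (abs_le.1 (h.lip b1)).1
    have d3 : |(x a - g a + x b + g b) / 2 - x q| ≤ (g a + (x b - x a) + g b) / 2 - g q :=
      abs_le.2 ⟨by linarith, by linarith⟩
    nlinarith [mul_le_mul_of_nonneg_right c2 (abs_nonneg ((x a - g a + x b + g b) / 2 - x q))]
  refine ⟨W, W0, W1, fun i hi => sum_eq_zero fun j _ => ?_, fun q => ?_⟩
  · have b1 : (u j % P).toNat ≠ i := fun e => hi (by
      rw [← e, (hred _).1]; exact h.well_per (hu j) _)
    have b2 : (v j % P).toNat ≠ i := fun e => hi (by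
      rw [← e, (hred _).1]; exact h.well_per (hv j) _)
    simp [b1, b2]
  · obtain ⟨w, w1, w2⟩ : ∃ w, Well s w ∧ g w = g q + |x w - x q| := by
      by_cases hs : s q
      · obtain ⟨w, w1, w2, w3, -⟩ := h.bwd hs
        exact ⟨w, w2, by rw [w3, abs_of_nonpos (sub_nonpos.2 (hm w1))]; ring⟩
      · obtain ⟨w, w1, w2, w3, -⟩ := h.fwd (Or.inr hs)
        exact ⟨w, w2, by rw [w3, abs_of_nonneg (sub_nonneg.2 (hm w1))]⟩
    have c1 := wells w w1
    have c2 : ∑ i ∈ range (2 * M), W i * (tent (x i - x w) - |x w - x q|) ≤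
        ∑ i ∈ range (2 * M), W i * tent (x i - x q) := by
      refine sum_le_sum fun i _ => mul_le_mul_of_nonneg_left ?_ (W0 i)
      have := tent_lip (x i - x w) (x i - x q)
      rwa [sub_sub_sub_cancel_left, abs_sub_comm] at this
    simp only [mul_sub, sum_sub_distrib, ← sum_mul, W1] at c2
    linarith

end Pool.Agent.P.MP_3c7b76_co
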